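import Mathlib
import Pool.Agent.Helper29.EMT.Chain

/-!
# MP_5186fc_co : words with one defect, for the zigzag chain with an even number of rows

The blocks of vertices and of edges alternate on the line of labels, except that the vertex blocks
of the ranks `6 p + 1` and `6 p + 2` are adjacent.
-/

set_option autoImplicit false

open SimpleGraph

namespace Pool.Agent.Helper46.EMT

open Pool.Agent.Helper29.EMT

/-- number of edge blocks before the vertex block of rank `x` -/
def uB (p x : ℕ) : ℤ := if x ≤ 6 * p + 1 then (x : ℤ) else (x : ℤ) - 1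

/-- defect of the position of the vertex block of rank `x` -/
def wVB (p x : ℕ) : ℤ := if x = 0 ∨ x = 6 * p + 2 then 0 else if 12 * p + 6 ≤ x then 2 else 1

/-- defect of the position of the edge block of rank `y` -/
def wEB (p y : ℕ) : ℤ := if y = 0 ∨ y = 6 * p + 1 then 0 else if 12 * p + 4 ≤ y then 2 else 1

/-- **Criterion.** -/
theorem isEMT_critB (p h : ℕ) (hp : 1 ≤ p) (hh : 1 ≤ h) (N : ℕ → ℕ)
    (hN0 : N 0 = 6 * p + 1) (hN1 : N 1 = 6 * p + 6) (hNr : N (12 * p + 6) = 12 * p + 5)
    (hNs : N (12 * p + 5) = 6 * p + 4)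
    (hV : ∀ x, x ≤ 12 * p + 6 → ∃ j, j ≤ 12 * p + 6 ∧ N j = x)
    (hE : ∀ y, y < 12 * p + 6 → ∃ j, j < 12 * p + 6 ∧
      uB p (N j) + uB p (N (j + 1)) + y = 18 * p + 7 ∧
      (j = 0 ∨ j + 1 = 12 * p + 6 ∨ wVB p (N j) + wVB p (N (j + 1)) + wEB p y = 3)) :
    IsEMT (grid (2 * h) (12 * p + 6)) := by
  obtain ⟨r, hr⟩ : ∃ r, r = 12 * p + 6 := ⟨_, rfl⟩
  obtain ⟨a, ha⟩ : ∃ a : ℕ → ℤ, ∀ j, a j = uB p (N j) * (6 * h - 1) - wVB p (N j) * h :=
    ⟨fun j => _, fun j => rfl⟩
  obtain ⟨K, hK⟩ : ∃ K : ℤ, K = (18 * p + 7) * (6 * h - 1) + 3 * h - 2 := ⟨_, rfl⟩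
  rw [← hr]
  refine isEMT_of_chain (2 * h) r (by omega) (by omega) a K ?_
  set S := chainSet (2 * h) r a K with hS
  have hNr' : N r = 12 * p + 5 := by rw [hr]; exact hNr
  have hNs' : N (r - 1) = 6 * p + 4 := by rw [show r - 1 = 12 * p + 5 by omega]; exact hNs
  have e1 : (2 * h + 1) / 2 = h := by omega
  have e2 : 2 * h / 2 = h := by omega
  have e3 : (((3 * (2 * h) - 1) / 2 : ℕ) : ℤ) = 3 * h - 1 := by omega
  have e4 : (((3 * (2 * h) - 2) / 2 : ℕ) : ℤ) = 3 * h - 1 := by omega
  have bV : ∀ x, x ≤ r → Cov S (uB p x * (6 * h - 1) - wVB p x * h)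
      (uB p x * (6 * h - 1) - wVB p x * h + 2 * h -
        (if x = 6 * p + 1 ∨ x = 12 * p + 5 then 1 else 0) * h) := by
    intro x hx
    by_cases h0 : x = 6 * p + 1
    · have h1 := cov_N0 (2 * h) r a K
      rw [e1, ha, hN0, ← h0] at h1
      refine h1.congr rfl ?_
      rw [if_pos (Or.inl h0)]; ring
    · by_cases h1 : x = 12 * p + 5
      · have h2 := cov_Nn (2 * h) r a K
        rw [e2, ha, hNr', ← h1] at h2
        refine h2.congr rfl ?_
        rw [if_pos (Or.inr h1)]; ring
      · obtain ⟨j, hj, hNj⟩ := hV x (by omega)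
        have hj0 : j ≠ 0 := by rintro rfl; omega
        have hjr : j ≠ r := by intro hc; rw [hc, hNr'] at hNj; omega
        have h2 := cov_N (2 * h) r a K j (by omega) (by omega)
        rw [ha, hNj] at h2
        refine h2.congr rfl ?_
        rw [if_neg (by omega)]; push_cast; ring
  have bE : ∀ y : ℕ, y < r → Cov S ((y : ℤ) * (6 * h - 1) + 2 * h - wEB p y * h)
      ((y : ℤ) * (6 * h - 1) + 2 * h - wEB p y * h + 4 * h - 1 -
        (if y = 6 * p + 1 ∨ y = 0 then 1 else 0) * h) := by
    intro y hy
    by_cases h0 : y = 6 * p + 1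
    · have h1 := cov_E0 (2 * h) r a K
      have u0 : uB p (6 * p + 1) = 6 * p + 1 := by unfold uB; omega
      have u1 : uB p (6 * p + 6) = 6 * p + 5 := by unfold uB; omega
      have w0 : wVB p (6 * p + 1) = 1 := by unfold wVB; omega
      have w1 : wVB p (6 * p + 6) = 1 := by unfold wVB; omega
      have w2 : wEB p (6 * p + 1) = 0 := by unfold wEB; omega
      rw [e3, ha, ha, hN0, hN1, u0, u1, w0, w1] at h1
      rw [if_pos (Or.inl h0), h0, w2]
      refine h1.congr ?_ ?_
      · rw [hK]; push_cast; ring
      · rw [hK]; push_cast; ring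
    · by_cases h1 : y = 0
      · have h2 := cov_En (2 * h) r a K
        have u0 : uB p (6 * p + 4) = 6 * p + 3 := by unfold uB; omega
        have u1 : uB p (12 * p + 5) = 12 * p + 4 := by unfold uB; omega
        have w0 : wVB p (6 * p + 4) = 1 := by unfold wVB; omega
        have w1 : wVB p (12 * p + 5) = 1 := by unfold wVB; omega
        have w2 : wEB p 0 = 0 := by unfold wEB; omega
        rw [e4, ha, ha, hNr', hNs', u0, u1, w0, w1] at h2
        rw [if_pos (Or.inr h1), h1, w2]
        refine h2.congr ?_ ?_
        · rw [hK]; push_cast; ring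
        · rw [hK]; push_cast; ring
      · obtain ⟨j, hj, hu, hw⟩ := hE y (by omega)
        have hj0 : j ≠ 0 := by
          rintro rfl
          rw [Nat.zero_add, hN0, hN1] at hu
          unfold uB at hu; omega
        have hjr : j + 1 ≠ 12 * p + 6 := by
          intro hc
          rw [hc, hNr, show j = 12 * p + 5 by omega, hNs] at hu
          unfold uB at hu; omega
        have hw' : wEB p y = 3 - wVB p (N j) - wVB p (N (j + 1)) := by
          rcases hw with hw | hw | hw
          · exact absurd hw hj0
          · exact absurd hw hjr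
          · linarith
        have hy' : (y : ℤ) = 18 * p + 7 - uB p (N j) - uB p (N (j + 1)) := by linarith
        have h2 := cov_E (2 * h) r a K j (by omega) (by omega)
        rw [ha, ha] at h2
        rw [if_neg (by omega), hw', hy']
        refine h2.congr ?_ ?_
        · rw [hK]; push_cast; ring
        · rw [hK]; push_cast; ring
  have hstep : ∀ x : ℕ, x < r + 1 → Cov S (uB p x * (6 * h - 1) - wVB p x * h)
      (uB p (x + 1) * (6 * h - 1) - wVB p (x + 1) * h) := by
    intro x hx
    by_cases c1 : x ≤ 6 * p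
    · have k1 := bV x (by omega)
      have k2 := bE x (by omega)
      rw [if_neg (by omega)] at k1
      refine (k1.trans (k2.congr ?_ rfl)).congr rfl ?_
      · have hw : wEB p x = wVB p x := by unfold wEB wVB; omega
        have hu : uB p x = x := by unfold uB; omega
        rw [hw, hu]; ring
      · have hu : uB p (x + 1) = x + 1 := by unfold uB; push_cast; omega
        by_cases c2 : x = 0
        · have w1 : wVB p (x + 1) = 1 := by unfold wVB; omega
          have w2 : wEB p x = 0 := by unfold wEB; omega
          rw [if_pos (Or.inr c2), hu, w1, w2]; ring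
        · have w1 : wVB p (x + 1) = 1 := by unfold wVB; omega
          have w2 : wEB p x = 1 := by unfold wEB; omega
          rw [if_neg (by omega), hu, w1, w2]; ring
    · by_cases c2 : x = 6 * p + 1
      · have k1 := bV x (by omega)
        rw [if_pos (Or.inl c2)] at k1
        have hu : uB p (x + 1) = x := by unfold uB; push_cast; omega
        have hu' : uB p x = x := by unfold uB; omega
        have w1 : wVB p (x + 1) = 0 := by unfold wVB; omega
        have w2 : wVB p x = 1 := by unfold wVB; omega
        refine k1.congr rfl ?_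
        rw [hu, hu', w1, w2]; ring
      · have k1 := bV x (by omega)
        have k2 := bE (x - 1) (by omega)
        have hu : uB p (x + 1) = x := by unfold uB; push_cast; omega
        have hu' : uB p x = x - 1 := by unfold uB; omega
        have hx1 : ((x - 1 : ℕ) : ℤ) = x - 1 := by omega
        rw [hx1] at k2
        have hw : wEB p (x - 1) = wVB p x + (if x = 6 * p + 1 ∨ x = 12 * p + 5 then 1 else 0) := by
          unfold wEB wVB; omega
        have hw2 : wVB p (x + 1) = wEB p (x - 1) +
            (if x - 1 = 6 * p + 1 ∨ x - 1 = 0 then 1 else 0) := by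
          unfold wEB wVB; omega
        refine (k1.trans (k2.congr ?_ rfl)).congr rfl ?_
        · rw [hw, hu']; ring
        · rw [hw2, hu]; ring
  have hmain := Cov.iter (S := S) (fun x : ℕ => uB p x * (6 * h - 1) - wVB p x * h) (r + 1) hstep
  refine hmain.congr ?_ ?_
  · have hu : uB p 0 = 0 := by unfold uB; omega
    have w1 : wVB p 0 = 0 := by unfold wVB; omega
    simp only [hu, w1]; ring
  · have hu : uB p (r + 1) = r := by unfold uB; push_cast; omega
    have w1 : wVB p (r + 1) = 2 := by unfold wVB; omega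
    simp only [hu, w1]; push_cast; ring

end Pool.Agent.Helper46.EMT
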