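import Mathlib
import Pool.Agent.Helper46.EMT.CritB

/-!
# MP_5186fc_co : grids with an even number of rows and `n = 6 mod 12`, `n ≥ 54` columns
(generated file)
-/

set_option autoImplicit false
set_option linter.unusedVariables false
set_option linter.unusedTactic false

open SimpleGraph

namespace Pool.Agent.Helper46.EMT

open Pool.Agent.Helper29.EMT

/-- ranks of the vertex blocks, `n = 12 (q + 4) + 6` columns -/
def NB (q j : ℕ) : ℕ :=
  if j < 1 then 6 * q + 25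
  else if j < 2 then 6 * q + 30
  else if j < 3 then 4 * q + 18
  else if j < 4 then 6 * q + 29
  else if j < 2 * q + 5 then (if (j - (4)) % 2 = 0 then 8 * q + 37 + (j - (4)) / 2 else 2 * q + 12 + (j - (4)) / 2)
  else if j < 2 * q + 6 then 9 * q + 39
  else if j < 2 * q + 7 then 9 * q + 38
  else if j < 2 * q + 8 then 3 * q + 12
  else if j < 2 * q + 9 then 9 * q + 40
  else if j < 2 * q + 10 then 3 * q + 13
  else if j < 2 * q + 11 then 3 * q + 15
  else if j < 2 * q + 12 then 3 * q + 14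
  else if j < 2 * q + 13 then 3 * q + 16
  else if j < 4 * q + 14 then (if (j - (2 * q + 13)) % 2 = 0 then 9 * q + 41 + (j - (2 * q + 13)) / 2 else 3 * q + 17 + (j - (2 * q + 13)) / 2)
  else if j < 4 * q + 15 then 1
  else if j < 4 * q + 16 then 10 * q + 42
  else if j < 4 * q + 17 then 2 * q + 7
  else if j < 4 * q + 18 then 10 * q + 44
  else if j < 4 * q + 19 then 4 * q + 19
  else if j < 4 * q + 20 then 10 * q + 45
  else if j < 4 * q + 21 then 2 * q + 11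
  else if j < 8 * q + 31 then (if (j - (4 * q + 21)) % 2 = 0 then 4 * q + 20 + (j - (4 * q + 21)) / 2 else 10 * q + 46 + (j - (4 * q + 21)) / 2)
  else if j < 8 * q + 32 then 2 * q + 8
  else if j < 8 * q + 33 then 12 * q + 51
  else if j < 8 * q + 34 then 2 * q + 9
  else if j < 8 * q + 35 then 12 * q + 52
  else if j < 8 * q + 36 then 2 * q + 10
  else if j < 8 * q + 37 then 8 * q + 36
  else if j < 8 * q + 38 then 10 * q + 43
  else if j < 12 * q + 48 then (if (j - (8 * q + 38)) % 2 = 0 then 8 * q + 35 - (j - (8 * q + 38)) / 2 else 2 * q + 6 - (j - (8 * q + 38)) / 2)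
  else if j < 12 * q + 49 then 6 * q + 26
  else if j < 12 * q + 50 then 12 * q + 54
  else if j < 12 * q + 51 then 0
  else if j < 12 * q + 52 then 6 * q + 27
  else if j < 12 * q + 53 then 4 * q + 17
  else if j < 12 * q + 54 then 6 * q + 28
  else 12 * q + 53

theorem NB_s0 (q j : ℕ) (h : j = 0) : NB q j = 6 * q + 25 := by
  subst h
  rw [NB, if_pos (by omega)]

theorem NB_s1 (q j : ℕ) (h : j = 1) : NB q j = 6 * q + 30 := by
  subst h
  rw [NB, if_neg (by omega), if_pos (by omega)]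

theorem NB_s2 (q j : ℕ) (h : j = 2) : NB q j = 4 * q + 18 := by
  subst h
  rw [NB, if_neg (by omega), if_neg (by omega), if_pos (by omega)]

theorem NB_s3 (q j : ℕ) (h : j = 3) : NB q j = 6 * q + 29 := by
  subst h
  rw [NB, if_neg (by omega), if_neg (by omega), if_neg (by omega), if_pos (by omega)]

theorem NB_s4 (q j : ℕ) (h1 : 4 ≤ j) (h2 : j < 2 * q + 5) : NB q j =
    (if (j - (4)) % 2 = 0 then 8 * q + 37 + (j - (4)) / 2 else 2 * q + 12 + (j - (4)) / 2) := by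
  rw [NB, if_neg (by omega), if_neg (by omega), if_neg (by omega), if_neg (by omega), if_pos (by omega)]

theorem NB_s5 (q j : ℕ) (h : j = 2 * q + 5) : NB q j = 9 * q + 39 := by
  subst h
  rw [NB, if_neg (by omega), if_neg (by omega), if_neg (by omega), if_neg (by omega), if_neg (by omega), if_pos (by omega)]

theorem NB_s6 (q j : ℕ) (h : j = 2 * q + 6) : NB q j = 9 * q + 38 := by
  subst h
  rw [NB, if_neg (by omega), if_neg (by omega), if_neg (by omega), if_neg (by omega), if_neg (by omega), if_neg (by omega), if_pos (by omega)]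

theorem NB_s7 (q j : ℕ) (h : j = 2 * q + 7) : NB q j = 3 * q + 12 := by
  subst h
  rw [NB, if_neg (by omega), if_neg (by omega), if_neg (by omega), if_neg (by omega), if_neg (by omega), if_neg (by omega), if_neg (by omega), if_pos (by omega)]

theorem NB_s8 (q j : ℕ) (h : j = 2 * q + 8) : NB q j = 9 * q + 40 := by
  subst h
  rw [NB, if_neg (by omega), if_neg (by omega), if_neg (by omega), if_neg (by omega), if_neg (by omega), if_neg (by omega), if_neg (by omega), if_neg (by omega), if_pos (by omega)]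

theorem NB_s9 (q j : ℕ) (h : j = 2 * q + 9) : NB q j = 3 * q + 13 := by
  subst h
  rw [NB, if_neg (by omega), if_neg (by omega), if_neg (by omega), if_neg (by omega), if_neg (by omega), if_neg (by omega), if_neg (by omega), if_neg (by omega), if_neg (by omega), if_pos (by omega)]

theorem NB_s10 (q j : ℕ) (h : j = 2 * q + 10) : NB q j = 3 * q + 15 := by
  subst h
  rw [NB, if_neg (by omega), if_neg (by omega), if_neg (by omega), if_neg (by omega), if_neg (by omega), if_neg (by omega), if_neg (by omega), if_neg (by omega), if_neg (by omega), if_neg (by omega), if_pos (by omega)]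

theorem NB_s11 (q j : ℕ) (h : j = 2 * q + 11) : NB q j = 3 * q + 14 := by
  subst h
  rw [NB, if_neg (by omega), if_neg (by omega), if_neg (by omega), if_neg (by omega), if_neg (by omega), if_neg (by omega), if_neg (by omega), if_neg (by omega), if_neg (by omega), if_neg (by omega), if_neg (by omega), if_pos (by omega)]

theorem NB_s12 (q j : ℕ) (h : j = 2 * q + 12) : NB q j = 3 * q + 16 := by
  subst h
  rw [NB, if_neg (by omega), if_neg (by omega), if_neg (by omega), if_neg (by omega), if_neg (by omega), if_neg (by omega), if_neg (by omega), if_neg (by omega), if_neg (by omega), if_neg (by omega), if_neg (by omega), if_neg (by omega), if_pos (by omega)]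

theorem NB_s13 (q j : ℕ) (h1 : 2 * q + 13 ≤ j) (h2 : j < 4 * q + 14) : NB q j =
    (if (j - (2 * q + 13)) % 2 = 0 then 9 * q + 41 + (j - (2 * q + 13)) / 2 else 3 * q + 17 + (j - (2 * q + 13)) / 2) := by
  rw [NB, if_neg (by omega), if_neg (by omega), if_neg (by omega), if_neg (by omega), if_neg (by omega), if_neg (by omega), if_neg (by omega), if_neg (by omega), if_neg (by omega), if_neg (by omega), if_neg (by omega), if_neg (by omega), if_neg (by omega), if_pos (by omega)]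

theorem NB_s14 (q j : ℕ) (h : j = 4 * q + 14) : NB q j = 1 := by
  subst h
  rw [NB, if_neg (by omega), if_neg (by omega), if_neg (by omega), if_neg (by omega), if_neg (by omega), if_neg (by omega), if_neg (by omega), if_neg (by omega), if_neg (by omega), if_neg (by omega), if_neg (by omega), if_neg (by omega), if_neg (by omega), if_neg (by omega), if_pos (by omega)]

theorem NB_s15 (q j : ℕ) (h : j = 4 * q + 15) : NB q j = 10 * q + 42 := by
  subst h
  rw [NB, if_neg (by omega), if_neg (by omega), if_neg (by omega), if_neg (by omega), if_neg (by omega), if_neg (by omega), if_neg (by omega), if_neg (by omega), if_neg (by omega), if_neg (by omega), if_neg (by omega), if_neg (by omega), if_neg (by omega), if_neg (by omega), if_neg (by omega), if_pos (by omega)]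

theorem NB_s16 (q j : ℕ) (h : j = 4 * q + 16) : NB q j = 2 * q + 7 := by
  subst h
  rw [NB, if_neg (by omega), if_neg (by omega), if_neg (by omega), if_neg (by omega), if_neg (by omega), if_neg (by omega), if_neg (by omega), if_neg (by omega), if_neg (by omega), if_neg (by omega), if_neg (by omega), if_neg (by omega), if_neg (by omega), if_neg (by omega), if_neg (by omega), if_neg (by omega), if_pos (by omega)]

theorem NB_s17 (q j : ℕ) (h : j = 4 * q + 17) : NB q j = 10 * q + 44 := by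
  subst h
  rw [NB, if_neg (by omega), if_neg (by omega), if_neg (by omega), if_neg (by omega), if_neg (by omega), if_neg (by omega), if_neg (by omega), if_neg (by omega), if_neg (by omega), if_neg (by omega), if_neg (by omega), if_neg (by omega), if_neg (by omega), if_neg (by omega), if_neg (by omega), if_neg (by omega), if_neg (by omega), if_pos (by omega)]

theorem NB_s18 (q j : ℕ) (h : j = 4 * q + 18) : NB q j = 4 * q + 19 := by
  subst h
  rw [NB, if_neg (by omega), if_neg (by omega), if_neg (by omega), if_neg (by omega), if_neg (by omega), if_neg (by omega), if_neg (by omega), if_neg (by omega), if_neg (by omega), if_neg (by omega), if_neg (by omega), if_neg (by omega), if_neg (by omega), if_neg (by omega), if_neg (by omega), if_neg (by omega), if_neg (by omega), if_neg (by omega), if_pos (by omega)]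

theorem NB_s19 (q j : ℕ) (h : j = 4 * q + 19) : NB q j = 10 * q + 45 := by
  subst h
  rw [NB, if_neg (by omega), if_neg (by omega), if_neg (by omega), if_neg (by omega), if_neg (by omega), if_neg (by omega), if_neg (by omega), if_neg (by omega), if_neg (by omega), if_neg (by omega), if_neg (by omega), if_neg (by omega), if_neg (by omega), if_neg (by omega), if_neg (by omega), if_neg (by omega), if_neg (by omega), if_neg (by omega), if_neg (by omega), if_pos (by omega)]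

theorem NB_s20 (q j : ℕ) (h : j = 4 * q + 20) : NB q j = 2 * q + 11 := by
  subst h
  rw [NB, if_neg (by omega), if_neg (by omega), if_neg (by omega), if_neg (by omega), if_neg (by omega), if_neg (by omega), if_neg (by omega), if_neg (by omega), if_neg (by omega), if_neg (by omega), if_neg (by omega), if_neg (by omega), if_neg (by omega), if_neg (by omega), if_neg (by omega), if_neg (by omega), if_neg (by omega), if_neg (by omega), if_neg (by omega), if_neg (by omega), if_pos (by omega)]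

theorem NB_s21 (q j : ℕ) (h1 : 4 * q + 21 ≤ j) (h2 : j < 8 * q + 31) : NB q j =
    (if (j - (4 * q + 21)) % 2 = 0 then 4 * q + 20 + (j - (4 * q + 21)) / 2 else 10 * q + 46 + (j - (4 * q + 21)) / 2) := by
  rw [NB, if_neg (by omega), if_neg (by omega), if_neg (by omega), if_neg (by omega), if_neg (by omega), if_neg (by omega), if_neg (by omega), if_neg (by omega), if_neg (by omega), if_neg (by omega), if_neg (by omega), if_neg (by omega), if_neg (by omega), if_neg (by omega), if_neg (by omega), if_neg (by omega), if_neg (by omega), if_neg (by omega), if_neg (by omega), if_neg (by omega), if_neg (by omega), if_pos (by omega)]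

theorem NB_s22 (q j : ℕ) (h : j = 8 * q + 31) : NB q j = 2 * q + 8 := by
  subst h
  rw [NB, if_neg (by omega), if_neg (by omega), if_neg (by omega), if_neg (by omega), if_neg (by omega), if_neg (by omega), if_neg (by omega), if_neg (by omega), if_neg (by omega), if_neg (by omega), if_neg (by omega), if_neg (by omega), if_neg (by omega), if_neg (by omega), if_neg (by omega), if_neg (by omega), if_neg (by omega), if_neg (by omega), if_neg (by omega), if_neg (by omega), if_neg (by omega), if_neg (by omega), if_pos (by omega)]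

theorem NB_s23 (q j : ℕ) (h : j = 8 * q + 32) : NB q j = 12 * q + 51 := by
  subst h
  rw [NB, if_neg (by omega), if_neg (by omega), if_neg (by omega), if_neg (by omega), if_neg (by omega), if_neg (by omega), if_neg (by omega), if_neg (by omega), if_neg (by omega), if_neg (by omega), if_neg (by omega), if_neg (by omega), if_neg (by omega), if_neg (by omega), if_neg (by omega), if_neg (by omega), if_neg (by omega), if_neg (by omega), if_neg (by omega), if_neg (by omega), if_neg (by omega), if_neg (by omega), if_neg (by omega), if_pos (by omega)]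

theorem NB_s24 (q j : ℕ) (h : j = 8 * q + 33) : NB q j = 2 * q + 9 := by
  subst h
  rw [NB, if_neg (by omega), if_neg (by omega), if_neg (by omega), if_neg (by omega), if_neg (by omega), if_neg (by omega), if_neg (by omega), if_neg (by omega), if_neg (by omega), if_neg (by omega), if_neg (by omega), if_neg (by omega), if_neg (by omega), if_neg (by omega), if_neg (by omega), if_neg (by omega), if_neg (by omega), if_neg (by omega), if_neg (by omega), if_neg (by omega), if_neg (by omega), if_neg (by omega), if_neg (by omega), if_neg (by omega), if_pos (by omega)]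

theorem NB_s25 (q j : ℕ) (h : j = 8 * q + 34) : NB q j = 12 * q + 52 := by
  subst h
  rw [NB, if_neg (by omega), if_neg (by omega), if_neg (by omega), if_neg (by omega), if_neg (by omega), if_neg (by omega), if_neg (by omega), if_neg (by omega), if_neg (by omega), if_neg (by omega), if_neg (by omega), if_neg (by omega), if_neg (by omega), if_neg (by omega), if_neg (by omega), if_neg (by omega), if_neg (by omega), if_neg (by omega), if_neg (by omega), if_neg (by omega), if_neg (by omega), if_neg (by omega), if_neg (by omega), if_neg (by omega), if_neg (by omega), if_pos (by omega)]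

theorem NB_s26 (q j : ℕ) (h : j = 8 * q + 35) : NB q j = 2 * q + 10 := by
  subst h
  rw [NB, if_neg (by omega), if_neg (by omega), if_neg (by omega), if_neg (by omega), if_neg (by omega), if_neg (by omega), if_neg (by omega), if_neg (by omega), if_neg (by omega), if_neg (by omega), if_neg (by omega), if_neg (by omega), if_neg (by omega), if_neg (by omega), if_neg (by omega), if_neg (by omega), if_neg (by omega), if_neg (by omega), if_neg (by omega), if_neg (by omega), if_neg (by omega), if_neg (by omega), if_neg (by omega), if_neg (by omega), if_neg (by omega), if_neg (by omega), if_pos (by omega)]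

theorem NB_s27 (q j : ℕ) (h : j = 8 * q + 36) : NB q j = 8 * q + 36 := by
  subst h
  rw [NB, if_neg (by omega), if_neg (by omega), if_neg (by omega), if_neg (by omega), if_neg (by omega), if_neg (by omega), if_neg (by omega), if_neg (by omega), if_neg (by omega), if_neg (by omega), if_neg (by omega), if_neg (by omega), if_neg (by omega), if_neg (by omega), if_neg (by omega), if_neg (by omega), if_neg (by omega), if_neg (by omega), if_neg (by omega), if_neg (by omega), if_neg (by omega), if_neg (by omega), if_neg (by omega), if_neg (by omega), if_neg (by omega), if_neg (by omega), if_neg (by omega), if_pos (by omega)]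

theorem NB_s28 (q j : ℕ) (h : j = 8 * q + 37) : NB q j = 10 * q + 43 := by
  subst h
  rw [NB, if_neg (by omega), if_neg (by omega), if_neg (by omega), if_neg (by omega), if_neg (by omega), if_neg (by omega), if_neg (by omega), if_neg (by omega), if_neg (by omega), if_neg (by omega), if_neg (by omega), if_neg (by omega), if_neg (by omega), if_neg (by omega), if_neg (by omega), if_neg (by omega), if_neg (by omega), if_neg (by omega), if_neg (by omega), if_neg (by omega), if_neg (by omega), if_neg (by omega), if_neg (by omega), if_neg (by omega), if_neg (by omega), if_neg (by omega), if_neg (by omega), if_neg (by omega), if_pos (by omega)]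

theorem NB_s29 (q j : ℕ) (h1 : 8 * q + 38 ≤ j) (h2 : j < 12 * q + 48) : NB q j =
    (if (j - (8 * q + 38)) % 2 = 0 then 8 * q + 35 - (j - (8 * q + 38)) / 2 else 2 * q + 6 - (j - (8 * q + 38)) / 2) := by
  rw [NB, if_neg (by omega), if_neg (by omega), if_neg (by omega), if_neg (by omega), if_neg (by omega), if_neg (by omega), if_neg (by omega), if_neg (by omega), if_neg (by omega), if_neg (by omega), if_neg (by omega), if_neg (by omega), if_neg (by omega), if_neg (by omega), if_neg (by omega), if_neg (by omega), if_neg (by omega), if_neg (by omega), if_neg (by omega), if_neg (by omega), if_neg (by omega), if_neg (by omega), if_neg (by omega), if_neg (by omega), if_neg (by omega), if_neg (by omega), if_neg (by omega), if_neg (by omega), if_neg (by omega), if_pos (by omega)]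

theorem NB_s30 (q j : ℕ) (h : j = 12 * q + 48) : NB q j = 6 * q + 26 := by
  subst h
  rw [NB, if_neg (by omega), if_neg (by omega), if_neg (by omega), if_neg (by omega), if_neg (by omega), if_neg (by omega), if_neg (by omega), if_neg (by omega), if_neg (by omega), if_neg (by omega), if_neg (by omega), if_neg (by omega), if_neg (by omega), if_neg (by omega), if_neg (by omega), if_neg (by omega), if_neg (by omega), if_neg (by omega), if_neg (by omega), if_neg (by omega), if_neg (by omega), if_neg (by omega), if_neg (by omega), if_neg (by omega), if_neg (by omega), if_neg (by omega), if_neg (by omega), if_neg (by omega), if_neg (by omega), if_neg (by omega), if_pos (by omega)]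

theorem NB_s31 (q j : ℕ) (h : j = 12 * q + 49) : NB q j = 12 * q + 54 := by
  subst h
  rw [NB, if_neg (by omega), if_neg (by omega), if_neg (by omega), if_neg (by omega), if_neg (by omega), if_neg (by omega), if_neg (by omega), if_neg (by omega), if_neg (by omega), if_neg (by omega), if_neg (by omega), if_neg (by omega), if_neg (by omega), if_neg (by omega), if_neg (by omega), if_neg (by omega), if_neg (by omega), if_neg (by omega), if_neg (by omega), if_neg (by omega), if_neg (by omega), if_neg (by omega), if_neg (by omega), if_neg (by omega), if_neg (by omega), if_neg (by omega), if_neg (by omega), if_neg (by omega), if_neg (by omega), if_neg (by omega), if_neg (by omega), if_pos (by omega)]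

theorem NB_s32 (q j : ℕ) (h : j = 12 * q + 50) : NB q j = 0 := by
  subst h
  rw [NB, if_neg (by omega), if_neg (by omega), if_neg (by omega), if_neg (by omega), if_neg (by omega), if_neg (by omega), if_neg (by omega), if_neg (by omega), if_neg (by omega), if_neg (by omega), if_neg (by omega), if_neg (by omega), if_neg (by omega), if_neg (by omega), if_neg (by omega), if_neg (by omega), if_neg (by omega), if_neg (by omega), if_neg (by omega), if_neg (by omega), if_neg (by omega), if_neg (by omega), if_neg (by omega), if_neg (by omega), if_neg (by omega), if_neg (by omega), if_neg (by omega), if_neg (by omega), if_neg (by omega), if_neg (by omega), if_neg (by omega), if_neg (by omega), if_pos (by omega)]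

theorem NB_s33 (q j : ℕ) (h : j = 12 * q + 51) : NB q j = 6 * q + 27 := by
  subst h
  rw [NB, if_neg (by omega), if_neg (by omega), if_neg (by omega), if_neg (by omega), if_neg (by omega), if_neg (by omega), if_neg (by omega), if_neg (by omega), if_neg (by omega), if_neg (by omega), if_neg (by omega), if_neg (by omega), if_neg (by omega), if_neg (by omega), if_neg (by omega), if_neg (by omega), if_neg (by omega), if_neg (by omega), if_neg (by omega), if_neg (by omega), if_neg (by omega), if_neg (by omega), if_neg (by omega), if_neg (by omega), if_neg (by omega), if_neg (by omega), if_neg (by omega), if_neg (by omega), if_neg (by omega), if_neg (by omega), if_neg (by omega), if_neg (by omega), if_neg (by omega), if_pos (by omega)]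

theorem NB_s34 (q j : ℕ) (h : j = 12 * q + 52) : NB q j = 4 * q + 17 := by
  subst h
  rw [NB, if_neg (by omega), if_neg (by omega), if_neg (by omega), if_neg (by omega), if_neg (by omega), if_neg (by omega), if_neg (by omega), if_neg (by omega), if_neg (by omega), if_neg (by omega), if_neg (by omega), if_neg (by omega), if_neg (by omega), if_neg (by omega), if_neg (by omega), if_neg (by omega), if_neg (by omega), if_neg (by omega), if_neg (by omega), if_neg (by omega), if_neg (by omega), if_neg (by omega), if_neg (by omega), if_neg (by omega), if_neg (by omega), if_neg (by omega), if_neg (by omega), if_neg (by omega), if_neg (by omega), if_neg (by omega), if_neg (by omega), if_neg (by omega), if_neg (by omega), if_neg (by omega), if_pos (by omega)]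

theorem NB_s35 (q j : ℕ) (h : j = 12 * q + 53) : NB q j = 6 * q + 28 := by
  subst h
  rw [NB, if_neg (by omega), if_neg (by omega), if_neg (by omega), if_neg (by omega), if_neg (by omega), if_neg (by omega), if_neg (by omega), if_neg (by omega), if_neg (by omega), if_neg (by omega), if_neg (by omega), if_neg (by omega), if_neg (by omega), if_neg (by omega), if_neg (by omega), if_neg (by omega), if_neg (by omega), if_neg (by omega), if_neg (by omega), if_neg (by omega), if_neg (by omega), if_neg (by omega), if_neg (by omega), if_neg (by omega), if_neg (by omega), if_neg (by omega), if_neg (by omega), if_neg (by omega), if_neg (by omega), if_neg (by omega), if_neg (by omega), if_neg (by omega), if_neg (by omega), if_neg (by omega), if_neg (by omega), if_pos (by omega)]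

theorem NB_s36 (q j : ℕ) (h : j = 12 * q + 54) : NB q j = 12 * q + 53 := by
  subst h
  rw [NB, if_neg (by omega), if_neg (by omega), if_neg (by omega), if_neg (by omega), if_neg (by omega), if_neg (by omega), if_neg (by omega), if_neg (by omega), if_neg (by omega), if_neg (by omega), if_neg (by omega), if_neg (by omega), if_neg (by omega), if_neg (by omega), if_neg (by omega), if_neg (by omega), if_neg (by omega), if_neg (by omega), if_neg (by omega), if_neg (by omega), if_neg (by omega), if_neg (by omega), if_neg (by omega), if_neg (by omega), if_neg (by omega), if_neg (by omega), if_neg (by omega), if_neg (by omega), if_neg (by omega), if_neg (by omega), if_neg (by omega), if_neg (by omega), if_neg (by omega), if_neg (by omega), if_neg (by omega), if_neg (by omega)]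

theorem NB_V0 (q x : ℕ) (h1 : 0 ≤ x) (h2 : x ≤ 0) : ∃ j, j ≤ 12 * q + 54 ∧ NB q j = x := by
  exact ⟨12 * q + 50, by omega, by rw [NB_s32 q _ rfl]; omega⟩

theorem NB_V1 (q x : ℕ) (h1 : 1 ≤ x) (h2 : x ≤ 1) : ∃ j, j ≤ 12 * q + 54 ∧ NB q j = x := by
  exact ⟨4 * q + 14, by omega, by rw [NB_s14 q _ rfl]; omega⟩

theorem NB_V2 (q x : ℕ) (h1 : 2 ≤ x) (h2 : x ≤ 2 * q + 6) : ∃ j, j ≤ 12 * q + 54 ∧ NB q j = x := by
  have hN := NB_s29 q (8 * q + 38 + 2 * (2 * q + 6 - x) + 1) (by omega) (by omega)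
  rw [if_neg (by omega)] at hN
  exact ⟨8 * q + 38 + 2 * (2 * q + 6 - x) + 1, by omega, by rw [hN]; omega⟩

theorem NB_V3 (q x : ℕ) (h1 : 2 * q + 7 ≤ x) (h2 : x ≤ 2 * q + 7) : ∃ j, j ≤ 12 * q + 54 ∧ NB q j = x := by
  exact ⟨4 * q + 16, by omega, by rw [NB_s16 q _ rfl]; omega⟩

theorem NB_V4 (q x : ℕ) (h1 : 2 * q + 8 ≤ x) (h2 : x ≤ 2 * q + 8) : ∃ j, j ≤ 12 * q + 54 ∧ NB q j = x := by
  exact ⟨8 * q + 31, by omega, by rw [NB_s22 q _ rfl]; omega⟩

theorem NB_V5 (q x : ℕ) (h1 : 2 * q + 9 ≤ x) (h2 : x ≤ 2 * q + 9) : ∃ j, j ≤ 12 * q + 54 ∧ NB q j = x := by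
  exact ⟨8 * q + 33, by omega, by rw [NB_s24 q _ rfl]; omega⟩

theorem NB_V6 (q x : ℕ) (h1 : 2 * q + 10 ≤ x) (h2 : x ≤ 2 * q + 10) : ∃ j, j ≤ 12 * q + 54 ∧ NB q j = x := by
  exact ⟨8 * q + 35, by omega, by rw [NB_s26 q _ rfl]; omega⟩

theorem NB_V7 (q x : ℕ) (h1 : 2 * q + 11 ≤ x) (h2 : x ≤ 2 * q + 11) : ∃ j, j ≤ 12 * q + 54 ∧ NB q j = x := by
  exact ⟨4 * q + 20, by omega, by rw [NB_s20 q _ rfl]; omega⟩

theorem NB_V8 (q x : ℕ) (h1 : 2 * q + 12 ≤ x) (h2 : x ≤ 3 * q + 11) : ∃ j, j ≤ 12 * q + 54 ∧ NB q j = x := by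
  have hN := NB_s4 q (4 + 2 * (x - (2 * q + 12)) + 1) (by omega) (by omega)
  rw [if_neg (by omega)] at hN
  exact ⟨4 + 2 * (x - (2 * q + 12)) + 1, by omega, by rw [hN]; omega⟩

theorem NB_V9 (q x : ℕ) (h1 : 3 * q + 12 ≤ x) (h2 : x ≤ 3 * q + 12) : ∃ j, j ≤ 12 * q + 54 ∧ NB q j = x := by
  exact ⟨2 * q + 7, by omega, by rw [NB_s7 q _ rfl]; omega⟩

theorem NB_V10 (q x : ℕ) (h1 : 3 * q + 13 ≤ x) (h2 : x ≤ 3 * q + 13) : ∃ j, j ≤ 12 * q + 54 ∧ NB q j = x := by
  exact ⟨2 * q + 9, by omega, by rw [NB_s9 q _ rfl]; omega⟩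

theorem NB_V11 (q x : ℕ) (h1 : 3 * q + 14 ≤ x) (h2 : x ≤ 3 * q + 14) : ∃ j, j ≤ 12 * q + 54 ∧ NB q j = x := by
  exact ⟨2 * q + 11, by omega, by rw [NB_s11 q _ rfl]; omega⟩

theorem NB_V12 (q x : ℕ) (h1 : 3 * q + 15 ≤ x) (h2 : x ≤ 3 * q + 15) : ∃ j, j ≤ 12 * q + 54 ∧ NB q j = x := by
  exact ⟨2 * q + 10, by omega, by rw [NB_s10 q _ rfl]; omega⟩

theorem NB_V13 (q x : ℕ) (h1 : 3 * q + 16 ≤ x) (h2 : x ≤ 3 * q + 16) : ∃ j, j ≤ 12 * q + 54 ∧ NB q j = x := by
  exact ⟨2 * q + 12, by omega, by rw [NB_s12 q _ rfl]; omega⟩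

theorem NB_V14 (q x : ℕ) (h1 : 3 * q + 17 ≤ x) (h2 : x ≤ 4 * q + 16) : ∃ j, j ≤ 12 * q + 54 ∧ NB q j = x := by
  have hN := NB_s13 q (2 * q + 13 + 2 * (x - (3 * q + 17)) + 1) (by omega) (by omega)
  rw [if_neg (by omega)] at hN
  exact ⟨2 * q + 13 + 2 * (x - (3 * q + 17)) + 1, by omega, by rw [hN]; omega⟩

theorem NB_V15 (q x : ℕ) (h1 : 4 * q + 17 ≤ x) (h2 : x ≤ 4 * q + 17) : ∃ j, j ≤ 12 * q + 54 ∧ NB q j = x := by
  exact ⟨12 * q + 52, by omega, by rw [NB_s34 q _ rfl]; omega⟩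

theorem NB_V16 (q x : ℕ) (h1 : 4 * q + 18 ≤ x) (h2 : x ≤ 4 * q + 18) : ∃ j, j ≤ 12 * q + 54 ∧ NB q j = x := by
  exact ⟨2, by omega, by rw [NB_s2 q _ rfl]; omega⟩

theorem NB_V17 (q x : ℕ) (h1 : 4 * q + 19 ≤ x) (h2 : x ≤ 4 * q + 19) : ∃ j, j ≤ 12 * q + 54 ∧ NB q j = x := by
  exact ⟨4 * q + 18, by omega, by rw [NB_s18 q _ rfl]; omega⟩

theorem NB_V18 (q x : ℕ) (h1 : 4 * q + 20 ≤ x) (h2 : x ≤ 6 * q + 24) : ∃ j, j ≤ 12 * q + 54 ∧ NB q j = x := by
  have hN := NB_s21 q (4 * q + 21 + 2 * (x - (4 * q + 20))) (by omega) (by omega)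
  rw [if_pos (by omega)] at hN
  exact ⟨4 * q + 21 + 2 * (x - (4 * q + 20)), by omega, by rw [hN]; omega⟩

theorem NB_V19 (q x : ℕ) (h1 : 6 * q + 25 ≤ x) (h2 : x ≤ 6 * q + 25) : ∃ j, j ≤ 12 * q + 54 ∧ NB q j = x := by
  exact ⟨0, by omega, by rw [NB_s0 q _ rfl]; omega⟩

theorem NB_V20 (q x : ℕ) (h1 : 6 * q + 26 ≤ x) (h2 : x ≤ 6 * q + 26) : ∃ j, j ≤ 12 * q + 54 ∧ NB q j = x := by
  exact ⟨12 * q + 48, by omega, by rw [NB_s30 q _ rfl]; omega⟩

theorem NB_V21 (q x : ℕ) (h1 : 6 * q + 27 ≤ x) (h2 : x ≤ 6 * q + 27) : ∃ j, j ≤ 12 * q + 54 ∧ NB q j = x := by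
  exact ⟨12 * q + 51, by omega, by rw [NB_s33 q _ rfl]; omega⟩

theorem NB_V22 (q x : ℕ) (h1 : 6 * q + 28 ≤ x) (h2 : x ≤ 6 * q + 28) : ∃ j, j ≤ 12 * q + 54 ∧ NB q j = x := by
  exact ⟨12 * q + 53, by omega, by rw [NB_s35 q _ rfl]; omega⟩

theorem NB_V23 (q x : ℕ) (h1 : 6 * q + 29 ≤ x) (h2 : x ≤ 6 * q + 29) : ∃ j, j ≤ 12 * q + 54 ∧ NB q j = x := by
  exact ⟨3, by omega, by rw [NB_s3 q _ rfl]; omega⟩

theorem NB_V24 (q x : ℕ) (h1 : 6 * q + 30 ≤ x) (h2 : x ≤ 6 * q + 30) : ∃ j, j ≤ 12 * q + 54 ∧ NB q j = x := by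
  exact ⟨1, by omega, by rw [NB_s1 q _ rfl]; omega⟩

theorem NB_V25 (q x : ℕ) (h1 : 6 * q + 31 ≤ x) (h2 : x ≤ 8 * q + 35) : ∃ j, j ≤ 12 * q + 54 ∧ NB q j = x := by
  have hN := NB_s29 q (8 * q + 38 + 2 * (8 * q + 35 - x)) (by omega) (by omega)
  rw [if_pos (by omega)] at hN
  exact ⟨8 * q + 38 + 2 * (8 * q + 35 - x), by omega, by rw [hN]; omega⟩

theorem NB_V26 (q x : ℕ) (h1 : 8 * q + 36 ≤ x) (h2 : x ≤ 8 * q + 36) : ∃ j, j ≤ 12 * q + 54 ∧ NB q j = x := by
  exact ⟨8 * q + 36, by omega, by rw [NB_s27 q _ rfl]; omega⟩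

theorem NB_V27 (q x : ℕ) (h1 : 8 * q + 37 ≤ x) (h2 : x ≤ 9 * q + 37) : ∃ j, j ≤ 12 * q + 54 ∧ NB q j = x := by
  have hN := NB_s4 q (4 + 2 * (x - (8 * q + 37))) (by omega) (by omega)
  rw [if_pos (by omega)] at hN
  exact ⟨4 + 2 * (x - (8 * q + 37)), by omega, by rw [hN]; omega⟩

theorem NB_V28 (q x : ℕ) (h1 : 9 * q + 38 ≤ x) (h2 : x ≤ 9 * q + 38) : ∃ j, j ≤ 12 * q + 54 ∧ NB q j = x := by
  exact ⟨2 * q + 6, by omega, by rw [NB_s6 q _ rfl]; omega⟩

theorem NB_V29 (q x : ℕ) (h1 : 9 * q + 39 ≤ x) (h2 : x ≤ 9 * q + 39) : ∃ j, j ≤ 12 * q + 54 ∧ NB q j = x := by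
  exact ⟨2 * q + 5, by omega, by rw [NB_s5 q _ rfl]; omega⟩

theorem NB_V30 (q x : ℕ) (h1 : 9 * q + 40 ≤ x) (h2 : x ≤ 9 * q + 40) : ∃ j, j ≤ 12 * q + 54 ∧ NB q j = x := by
  exact ⟨2 * q + 8, by omega, by rw [NB_s8 q _ rfl]; omega⟩

theorem NB_V31 (q x : ℕ) (h1 : 9 * q + 41 ≤ x) (h2 : x ≤ 10 * q + 41) : ∃ j, j ≤ 12 * q + 54 ∧ NB q j = x := by
  have hN := NB_s13 q (2 * q + 13 + 2 * (x - (9 * q + 41))) (by omega) (by omega)
  rw [if_pos (by omega)] at hN
  exact ⟨2 * q + 13 + 2 * (x - (9 * q + 41)), by omega, by rw [hN]; omega⟩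

theorem NB_V32 (q x : ℕ) (h1 : 10 * q + 42 ≤ x) (h2 : x ≤ 10 * q + 42) : ∃ j, j ≤ 12 * q + 54 ∧ NB q j = x := by
  exact ⟨4 * q + 15, by omega, by rw [NB_s15 q _ rfl]; omega⟩

theorem NB_V33 (q x : ℕ) (h1 : 10 * q + 43 ≤ x) (h2 : x ≤ 10 * q + 43) : ∃ j, j ≤ 12 * q + 54 ∧ NB q j = x := by
  exact ⟨8 * q + 37, by omega, by rw [NB_s28 q _ rfl]; omega⟩

theorem NB_V34 (q x : ℕ) (h1 : 10 * q + 44 ≤ x) (h2 : x ≤ 10 * q + 44) : ∃ j, j ≤ 12 * q + 54 ∧ NB q j = x := by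
  exact ⟨4 * q + 17, by omega, by rw [NB_s17 q _ rfl]; omega⟩

theorem NB_V35 (q x : ℕ) (h1 : 10 * q + 45 ≤ x) (h2 : x ≤ 10 * q + 45) : ∃ j, j ≤ 12 * q + 54 ∧ NB q j = x := by
  exact ⟨4 * q + 19, by omega, by rw [NB_s19 q _ rfl]; omega⟩

theorem NB_V36 (q x : ℕ) (h1 : 10 * q + 46 ≤ x) (h2 : x ≤ 12 * q + 50) : ∃ j, j ≤ 12 * q + 54 ∧ NB q j = x := by
  have hN := NB_s21 q (4 * q + 21 + 2 * (x - (10 * q + 46)) + 1) (by omega) (by omega)
  rw [if_neg (by omega)] at hN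
  exact ⟨4 * q + 21 + 2 * (x - (10 * q + 46)) + 1, by omega, by rw [hN]; omega⟩

theorem NB_V37 (q x : ℕ) (h1 : 12 * q + 51 ≤ x) (h2 : x ≤ 12 * q + 51) : ∃ j, j ≤ 12 * q + 54 ∧ NB q j = x := by
  exact ⟨8 * q + 32, by omega, by rw [NB_s23 q _ rfl]; omega⟩

theorem NB_V38 (q x : ℕ) (h1 : 12 * q + 52 ≤ x) (h2 : x ≤ 12 * q + 52) : ∃ j, j ≤ 12 * q + 54 ∧ NB q j = x := by
  exact ⟨8 * q + 34, by omega, by rw [NB_s25 q _ rfl]; omega⟩

theorem NB_V39 (q x : ℕ) (h1 : 12 * q + 53 ≤ x) (h2 : x ≤ 12 * q + 53) : ∃ j, j ≤ 12 * q + 54 ∧ NB q j = x := by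
  exact ⟨12 * q + 54, by omega, by rw [NB_s36 q _ rfl]; omega⟩

theorem NB_V40 (q x : ℕ) (h1 : 12 * q + 54 ≤ x) (h2 : x ≤ 12 * q + 54) : ∃ j, j ≤ 12 * q + 54 ∧ NB q j = x := by
  exact ⟨12 * q + 49, by omega, by rw [NB_s31 q _ rfl]; omega⟩

theorem NB_V (q x : ℕ) (hx : x ≤ 12 * q + 54) : ∃ j, j ≤ 12 * q + 54 ∧ NB q j = x := by
  by_cases g0 : x < 1
  · exact NB_V0 q x (by omega) (by omega)
  by_cases g1 : x < 2
  · exact NB_V1 q x (by omega) (by omega)
  by_cases g2 : x < 2 * q + 7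
  · exact NB_V2 q x (by omega) (by omega)
  by_cases g3 : x < 2 * q + 8
  · exact NB_V3 q x (by omega) (by omega)
  by_cases g4 : x < 2 * q + 9
  · exact NB_V4 q x (by omega) (by omega)
  by_cases g5 : x < 2 * q + 10
  · exact NB_V5 q x (by omega) (by omega)
  by_cases g6 : x < 2 * q + 11
  · exact NB_V6 q x (by omega) (by omega)
  by_cases g7 : x < 2 * q + 12
  · exact NB_V7 q x (by omega) (by omega)
  by_cases g8 : x < 3 * q + 12
  · exact NB_V8 q x (by omega) (by omega)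
  by_cases g9 : x < 3 * q + 13
  · exact NB_V9 q x (by omega) (by omega)
  by_cases g10 : x < 3 * q + 14
  · exact NB_V10 q x (by omega) (by omega)
  by_cases g11 : x < 3 * q + 15
  · exact NB_V11 q x (by omega) (by omega)
  by_cases g12 : x < 3 * q + 16
  · exact NB_V12 q x (by omega) (by omega)
  by_cases g13 : x < 3 * q + 17
  · exact NB_V13 q x (by omega) (by omega)
  by_cases g14 : x < 4 * q + 17
  · exact NB_V14 q x (by omega) (by omega)
  by_cases g15 : x < 4 * q + 18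
  · exact NB_V15 q x (by omega) (by omega)
  by_cases g16 : x < 4 * q + 19
  · exact NB_V16 q x (by omega) (by omega)
  by_cases g17 : x < 4 * q + 20
  · exact NB_V17 q x (by omega) (by omega)
  by_cases g18 : x < 6 * q + 25
  · exact NB_V18 q x (by omega) (by omega)
  by_cases g19 : x < 6 * q + 26
  · exact NB_V19 q x (by omega) (by omega)
  by_cases g20 : x < 6 * q + 27
  · exact NB_V20 q x (by omega) (by omega)
  by_cases g21 : x < 6 * q + 28
  · exact NB_V21 q x (by omega) (by omega)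
  by_cases g22 : x < 6 * q + 29
  · exact NB_V22 q x (by omega) (by omega)
  by_cases g23 : x < 6 * q + 30
  · exact NB_V23 q x (by omega) (by omega)
  by_cases g24 : x < 6 * q + 31
  · exact NB_V24 q x (by omega) (by omega)
  by_cases g25 : x < 8 * q + 36
  · exact NB_V25 q x (by omega) (by omega)
  by_cases g26 : x < 8 * q + 37
  · exact NB_V26 q x (by omega) (by omega)
  by_cases g27 : x < 9 * q + 38
  · exact NB_V27 q x (by omega) (by omega)
  by_cases g28 : x < 9 * q + 39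
  · exact NB_V28 q x (by omega) (by omega)
  by_cases g29 : x < 9 * q + 40
  · exact NB_V29 q x (by omega) (by omega)
  by_cases g30 : x < 9 * q + 41
  · exact NB_V30 q x (by omega) (by omega)
  by_cases g31 : x < 10 * q + 42
  · exact NB_V31 q x (by omega) (by omega)
  by_cases g32 : x < 10 * q + 43
  · exact NB_V32 q x (by omega) (by omega)
  by_cases g33 : x < 10 * q + 44
  · exact NB_V33 q x (by omega) (by omega)
  by_cases g34 : x < 10 * q + 45
  · exact NB_V34 q x (by omega) (by omega)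
  by_cases g35 : x < 10 * q + 46
  · exact NB_V35 q x (by omega) (by omega)
  by_cases g36 : x < 12 * q + 51
  · exact NB_V36 q x (by omega) (by omega)
  by_cases g37 : x < 12 * q + 52
  · exact NB_V37 q x (by omega) (by omega)
  by_cases g38 : x < 12 * q + 53
  · exact NB_V38 q x (by omega) (by omega)
  by_cases g39 : x < 12 * q + 54
  · exact NB_V39 q x (by omega) (by omega)
  exact NB_V40 q x (by omega) (by omega)

theorem NB_E0 (q y : ℕ) (h1 : 0 ≤ y) (h2 : y ≤ 0) : ∃ j, j < 12 * q + 54 ∧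
    uB (q + 4) (NB q j) + uB (q + 4) (NB q (j + 1)) + y = 18 * (q + 4) + 7 ∧
    (j = 0 ∨ j + 1 = 12 * q + 54 ∨ wVB (q + 4) (NB q j) + wVB (q + 4) (NB q (j + 1)) + wEB (q + 4) y = 3) := by
  obtain ⟨j, hj⟩ : ∃ j, j = 12 * q + 53 := ⟨_, rfl⟩
  have hN1 := NB_s35 q (j) (by omega)
  have hN2 := NB_s36 q (j + 1) (by omega)
  refine ⟨j, by omega, ?_, Or.inr (Or.inl (by omega))⟩
  rw [hN1, hN2]; unfold uB; omega

theorem NB_E1 (q y : ℕ) (h1 : 1 ≤ y) (h2 : y ≤ 1) : ∃ j, j < 12 * q + 54 ∧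
    uB (q + 4) (NB q j) + uB (q + 4) (NB q (j + 1)) + y = 18 * (q + 4) + 7 ∧
    (j = 0 ∨ j + 1 = 12 * q + 54 ∨ wVB (q + 4) (NB q j) + wVB (q + 4) (NB q (j + 1)) + wEB (q + 4) y = 3) := by
  obtain ⟨j, hj⟩ : ∃ j, j = 12 * q + 48 := ⟨_, rfl⟩
  have hN1 := NB_s30 q (j) (by omega)
  have hN2 := NB_s31 q (j + 1) (by omega)
  refine ⟨j, by omega, ?_, Or.inr (Or.inr ?_)⟩
  · rw [hN1, hN2]; unfold uB; omega
  · rw [hN1, hN2]; unfold wVB wEB; omega

theorem NB_E2 (q y : ℕ) (h1 : 2 ≤ y) (h2 : y ≤ 2) : ∃ j, j < 12 * q + 54 ∧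
    uB (q + 4) (NB q j) + uB (q + 4) (NB q (j + 1)) + y = 18 * (q + 4) + 7 ∧
    (j = 0 ∨ j + 1 = 12 * q + 54 ∨ wVB (q + 4) (NB q j) + wVB (q + 4) (NB q (j + 1)) + wEB (q + 4) y = 3) := by
  obtain ⟨j, hj⟩ : ∃ j, j = 8 * q + 36 := ⟨_, rfl⟩
  have hN1 := NB_s27 q (j) (by omega)
  have hN2 := NB_s28 q (j + 1) (by omega)
  refine ⟨j, by omega, ?_, Or.inr (Or.inr ?_)⟩
  · rw [hN1, hN2]; unfold uB; omega
  · rw [hN1, hN2]; unfold wVB wEB; omega

theorem NB_E3 (q y : ℕ) (h1 : 3 ≤ y) (h2 : y ≤ 3) : ∃ j, j < 12 * q + 54 ∧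
    uB (q + 4) (NB q j) + uB (q + 4) (NB q (j + 1)) + y = 18 * (q + 4) + 7 ∧
    (j = 0 ∨ j + 1 = 12 * q + 54 ∨ wVB (q + 4) (NB q j) + wVB (q + 4) (NB q (j + 1)) + wEB (q + 4) y = 3) := by
  obtain ⟨j, hj⟩ : ∃ j, j = 8 * q + 37 := ⟨_, rfl⟩
  have hN1 := NB_s28 q (j) (by omega)
  have hN2 := NB_s29 q (j + 1) (by omega) (by omega)
  rw [if_pos (by omega)] at hN2
  refine ⟨j, by omega, ?_, Or.inr (Or.inr ?_)⟩
  · rw [hN1, hN2]; unfold uB; omega
  · rw [hN1, hN2]; unfold wVB wEB; omega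

theorem NB_E4 (q y : ℕ) (h1 : 4 ≤ y) (h2 : y ≤ 4) : ∃ j, j < 12 * q + 54 ∧
    uB (q + 4) (NB q j) + uB (q + 4) (NB q (j + 1)) + y = 18 * (q + 4) + 7 ∧
    (j = 0 ∨ j + 1 = 12 * q + 54 ∨ wVB (q + 4) (NB q j) + wVB (q + 4) (NB q (j + 1)) + wEB (q + 4) y = 3) := by
  obtain ⟨j, hj⟩ : ∃ j, j = 2 * q + 5 := ⟨_, rfl⟩
  have hN1 := NB_s5 q (j) (by omega)
  have hN2 := NB_s6 q (j + 1) (by omega)
  refine ⟨j, by omega, ?_, Or.inr (Or.inr ?_)⟩
  · rw [hN1, hN2]; unfold uB; omega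
  · rw [hN1, hN2]; unfold wVB wEB; omega

theorem NB_E5 (q y : ℕ) (h1 : 5 ≤ y) (h2 : y ≤ 5) : ∃ j, j < 12 * q + 54 ∧
    uB (q + 4) (NB q j) + uB (q + 4) (NB q (j + 1)) + y = 18 * (q + 4) + 7 ∧
    (j = 0 ∨ j + 1 = 12 * q + 54 ∨ wVB (q + 4) (NB q j) + wVB (q + 4) (NB q (j + 1)) + wEB (q + 4) y = 3) := by
  obtain ⟨j, hj⟩ : ∃ j, j = 2 * q + 4 := ⟨_, rfl⟩
  have hN1 := NB_s4 q (j) (by omega) (by omega)
  rw [if_pos (by omega)] at hN1
  have hN2 := NB_s5 q (j + 1) (by omega)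
  refine ⟨j, by omega, ?_, Or.inr (Or.inr ?_)⟩
  · rw [hN1, hN2]; unfold uB; omega
  · rw [hN1, hN2]; unfold wVB wEB; omega

theorem NB_E6 (q y : ℕ) (h1 : 6 ≤ y) (h2 : y ≤ 4 * q + 14) : ∃ j, j < 12 * q + 54 ∧
    uB (q + 4) (NB q j) + uB (q + 4) (NB q (j + 1)) + y = 18 * (q + 4) + 7 ∧
    (j = 0 ∨ j + 1 = 12 * q + 54 ∨ wVB (q + 4) (NB q j) + wVB (q + 4) (NB q (j + 1)) + wEB (q + 4) y = 3) := by
  obtain ⟨j, hj⟩ : ∃ j, j = 4 * q + 21 + (4 * q + 14 - y) := ⟨_, rfl⟩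
  have hN1 := NB_s21 q j (by omega) (by omega)
  have hN2 := NB_s21 q (j + 1) (by omega) (by omega)
  rcases Nat.mod_two_eq_zero_or_one (j - (4 * q + 21)) with hp | hp
  · rw [if_pos hp] at hN1
    rw [if_neg (by omega)] at hN2
    refine ⟨j, by omega, ?_, Or.inr (Or.inr ?_)⟩
    · rw [hN1, hN2]; unfold uB; omega
    · rw [hN1, hN2]; unfold wVB wEB; omega
  · rw [if_neg (by omega)] at hN1
    rw [if_pos (by omega)] at hN2
    refine ⟨j, by omega, ?_, Or.inr (Or.inr ?_)⟩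
    · rw [hN1, hN2]; unfold uB; omega
    · rw [hN1, hN2]; unfold wVB wEB; omega

theorem NB_E7 (q y : ℕ) (h1 : 4 * q + 15 ≤ y) (h2 : y ≤ 4 * q + 15) : ∃ j, j < 12 * q + 54 ∧
    uB (q + 4) (NB q j) + uB (q + 4) (NB q (j + 1)) + y = 18 * (q + 4) + 7 ∧
    (j = 0 ∨ j + 1 = 12 * q + 54 ∨ wVB (q + 4) (NB q j) + wVB (q + 4) (NB q (j + 1)) + wEB (q + 4) y = 3) := by
  obtain ⟨j, hj⟩ : ∃ j, j = 3 := ⟨_, rfl⟩
  have hN1 := NB_s3 q (j) (by omega)
  have hN2 := NB_s4 q (j + 1) (by omega) (by omega)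
  rw [if_pos (by omega)] at hN2
  refine ⟨j, by omega, ?_, Or.inr (Or.inr ?_)⟩
  · rw [hN1, hN2]; unfold uB; omega
  · rw [hN1, hN2]; unfold wVB wEB; omega

theorem NB_E8 (q y : ℕ) (h1 : 4 * q + 16 ≤ y) (h2 : y ≤ 4 * q + 16) : ∃ j, j < 12 * q + 54 ∧
    uB (q + 4) (NB q j) + uB (q + 4) (NB q (j + 1)) + y = 18 * (q + 4) + 7 ∧
    (j = 0 ∨ j + 1 = 12 * q + 54 ∨ wVB (q + 4) (NB q j) + wVB (q + 4) (NB q (j + 1)) + wEB (q + 4) y = 3) := by
  obtain ⟨j, hj⟩ : ∃ j, j = 4 * q + 18 := ⟨_, rfl⟩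
  have hN1 := NB_s18 q (j) (by omega)
  have hN2 := NB_s19 q (j + 1) (by omega)
  refine ⟨j, by omega, ?_, Or.inr (Or.inr ?_)⟩
  · rw [hN1, hN2]; unfold uB; omega
  · rw [hN1, hN2]; unfold wVB wEB; omega

theorem NB_E9 (q y : ℕ) (h1 : 4 * q + 17 ≤ y) (h2 : y ≤ 4 * q + 17) : ∃ j, j < 12 * q + 54 ∧
    uB (q + 4) (NB q j) + uB (q + 4) (NB q (j + 1)) + y = 18 * (q + 4) + 7 ∧
    (j = 0 ∨ j + 1 = 12 * q + 54 ∨ wVB (q + 4) (NB q j) + wVB (q + 4) (NB q (j + 1)) + wEB (q + 4) y = 3) := by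
  obtain ⟨j, hj⟩ : ∃ j, j = 4 * q + 17 := ⟨_, rfl⟩
  have hN1 := NB_s17 q (j) (by omega)
  have hN2 := NB_s18 q (j + 1) (by omega)
  refine ⟨j, by omega, ?_, Or.inr (Or.inr ?_)⟩
  · rw [hN1, hN2]; unfold uB; omega
  · rw [hN1, hN2]; unfold wVB wEB; omega

theorem NB_E10 (q y : ℕ) (h1 : 4 * q + 18 ≤ y) (h2 : y ≤ 4 * q + 18) : ∃ j, j < 12 * q + 54 ∧
    uB (q + 4) (NB q j) + uB (q + 4) (NB q (j + 1)) + y = 18 * (q + 4) + 7 ∧
    (j = 0 ∨ j + 1 = 12 * q + 54 ∨ wVB (q + 4) (NB q j) + wVB (q + 4) (NB q (j + 1)) + wEB (q + 4) y = 3) := by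
  obtain ⟨j, hj⟩ : ∃ j, j = 8 * q + 34 := ⟨_, rfl⟩
  have hN1 := NB_s25 q (j) (by omega)
  have hN2 := NB_s26 q (j + 1) (by omega)
  refine ⟨j, by omega, ?_, Or.inr (Or.inr ?_)⟩
  · rw [hN1, hN2]; unfold uB; omega
  · rw [hN1, hN2]; unfold wVB wEB; omega

theorem NB_E11 (q y : ℕ) (h1 : 4 * q + 19 ≤ y) (h2 : y ≤ 4 * q + 19) : ∃ j, j < 12 * q + 54 ∧
    uB (q + 4) (NB q j) + uB (q + 4) (NB q (j + 1)) + y = 18 * (q + 4) + 7 ∧
    (j = 0 ∨ j + 1 = 12 * q + 54 ∨ wVB (q + 4) (NB q j) + wVB (q + 4) (NB q (j + 1)) + wEB (q + 4) y = 3) := by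
  obtain ⟨j, hj⟩ : ∃ j, j = 8 * q + 33 := ⟨_, rfl⟩
  have hN1 := NB_s24 q (j) (by omega)
  have hN2 := NB_s25 q (j + 1) (by omega)
  refine ⟨j, by omega, ?_, Or.inr (Or.inr ?_)⟩
  · rw [hN1, hN2]; unfold uB; omega
  · rw [hN1, hN2]; unfold wVB wEB; omega

theorem NB_E12 (q y : ℕ) (h1 : 4 * q + 20 ≤ y) (h2 : y ≤ 4 * q + 20) : ∃ j, j < 12 * q + 54 ∧
    uB (q + 4) (NB q j) + uB (q + 4) (NB q (j + 1)) + y = 18 * (q + 4) + 7 ∧
    (j = 0 ∨ j + 1 = 12 * q + 54 ∨ wVB (q + 4) (NB q j) + wVB (q + 4) (NB q (j + 1)) + wEB (q + 4) y = 3) := by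
  obtain ⟨j, hj⟩ : ∃ j, j = 8 * q + 32 := ⟨_, rfl⟩
  have hN1 := NB_s23 q (j) (by omega)
  have hN2 := NB_s24 q (j + 1) (by omega)
  refine ⟨j, by omega, ?_, Or.inr (Or.inr ?_)⟩
  · rw [hN1, hN2]; unfold uB; omega
  · rw [hN1, hN2]; unfold wVB wEB; omega

theorem NB_E13 (q y : ℕ) (h1 : 4 * q + 21 ≤ y) (h2 : y ≤ 4 * q + 21) : ∃ j, j < 12 * q + 54 ∧
    uB (q + 4) (NB q j) + uB (q + 4) (NB q (j + 1)) + y = 18 * (q + 4) + 7 ∧
    (j = 0 ∨ j + 1 = 12 * q + 54 ∨ wVB (q + 4) (NB q j) + wVB (q + 4) (NB q (j + 1)) + wEB (q + 4) y = 3) := by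
  obtain ⟨j, hj⟩ : ∃ j, j = 8 * q + 31 := ⟨_, rfl⟩
  have hN1 := NB_s22 q (j) (by omega)
  have hN2 := NB_s23 q (j + 1) (by omega)
  refine ⟨j, by omega, ?_, Or.inr (Or.inr ?_)⟩
  · rw [hN1, hN2]; unfold uB; omega
  · rw [hN1, hN2]; unfold wVB wEB; omega

theorem NB_E14 (q y : ℕ) (h1 : 4 * q + 22 ≤ y) (h2 : y ≤ 4 * q + 22) : ∃ j, j < 12 * q + 54 ∧
    uB (q + 4) (NB q j) + uB (q + 4) (NB q (j + 1)) + y = 18 * (q + 4) + 7 ∧
    (j = 0 ∨ j + 1 = 12 * q + 54 ∨ wVB (q + 4) (NB q j) + wVB (q + 4) (NB q (j + 1)) + wEB (q + 4) y = 3) := by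
  obtain ⟨j, hj⟩ : ∃ j, j = 8 * q + 30 := ⟨_, rfl⟩
  have hN1 := NB_s21 q (j) (by omega) (by omega)
  rw [if_neg (by omega)] at hN1
  have hN2 := NB_s22 q (j + 1) (by omega)
  refine ⟨j, by omega, ?_, Or.inr (Or.inr ?_)⟩
  · rw [hN1, hN2]; unfold uB; omega
  · rw [hN1, hN2]; unfold wVB wEB; omega

theorem NB_E15 (q y : ℕ) (h1 : 4 * q + 23 ≤ y) (h2 : y ≤ 6 * q + 22) : ∃ j, j < 12 * q + 54 ∧
    uB (q + 4) (NB q j) + uB (q + 4) (NB q (j + 1)) + y = 18 * (q + 4) + 7 ∧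
    (j = 0 ∨ j + 1 = 12 * q + 54 ∨ wVB (q + 4) (NB q j) + wVB (q + 4) (NB q (j + 1)) + wEB (q + 4) y = 3) := by
  obtain ⟨j, hj⟩ : ∃ j, j = 2 * q + 13 + (6 * q + 22 - y) := ⟨_, rfl⟩
  have hN1 := NB_s13 q j (by omega) (by omega)
  have hN2 := NB_s13 q (j + 1) (by omega) (by omega)
  rcases Nat.mod_two_eq_zero_or_one (j - (2 * q + 13)) with hp | hp
  · rw [if_pos hp] at hN1
    rw [if_neg (by omega)] at hN2
    refine ⟨j, by omega, ?_, Or.inr (Or.inr ?_)⟩
    · rw [hN1, hN2]; unfold uB; omega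
    · rw [hN1, hN2]; unfold wVB wEB; omega
  · rw [if_neg (by omega)] at hN1
    rw [if_pos (by omega)] at hN2
    refine ⟨j, by omega, ?_, Or.inr (Or.inr ?_)⟩
    · rw [hN1, hN2]; unfold uB; omega
    · rw [hN1, hN2]; unfold wVB wEB; omega

theorem NB_E16 (q y : ℕ) (h1 : 6 * q + 23 ≤ y) (h2 : y ≤ 6 * q + 23) : ∃ j, j < 12 * q + 54 ∧
    uB (q + 4) (NB q j) + uB (q + 4) (NB q (j + 1)) + y = 18 * (q + 4) + 7 ∧
    (j = 0 ∨ j + 1 = 12 * q + 54 ∨ wVB (q + 4) (NB q j) + wVB (q + 4) (NB q (j + 1)) + wEB (q + 4) y = 3) := by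
  obtain ⟨j, hj⟩ : ∃ j, j = 2 * q + 12 := ⟨_, rfl⟩
  have hN1 := NB_s12 q (j) (by omega)
  have hN2 := NB_s13 q (j + 1) (by omega) (by omega)
  rw [if_pos (by omega)] at hN2
  refine ⟨j, by omega, ?_, Or.inr (Or.inr ?_)⟩
  · rw [hN1, hN2]; unfold uB; omega
  · rw [hN1, hN2]; unfold wVB wEB; omega

theorem NB_E17 (q y : ℕ) (h1 : 6 * q + 24 ≤ y) (h2 : y ≤ 6 * q + 24) : ∃ j, j < 12 * q + 54 ∧
    uB (q + 4) (NB q j) + uB (q + 4) (NB q (j + 1)) + y = 18 * (q + 4) + 7 ∧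
    (j = 0 ∨ j + 1 = 12 * q + 54 ∨ wVB (q + 4) (NB q j) + wVB (q + 4) (NB q (j + 1)) + wEB (q + 4) y = 3) := by
  obtain ⟨j, hj⟩ : ∃ j, j = 4 * q + 19 := ⟨_, rfl⟩
  have hN1 := NB_s19 q (j) (by omega)
  have hN2 := NB_s20 q (j + 1) (by omega)
  refine ⟨j, by omega, ?_, Or.inr (Or.inr ?_)⟩
  · rw [hN1, hN2]; unfold uB; omega
  · rw [hN1, hN2]; unfold wVB wEB; omega

theorem NB_E18 (q y : ℕ) (h1 : 6 * q + 25 ≤ y) (h2 : y ≤ 6 * q + 25) : ∃ j, j < 12 * q + 54 ∧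
    uB (q + 4) (NB q j) + uB (q + 4) (NB q (j + 1)) + y = 18 * (q + 4) + 7 ∧
    (j = 0 ∨ j + 1 = 12 * q + 54 ∨ wVB (q + 4) (NB q j) + wVB (q + 4) (NB q (j + 1)) + wEB (q + 4) y = 3) := by
  obtain ⟨j, hj⟩ : ∃ j, j = 0 := ⟨_, rfl⟩
  have hN1 := NB_s0 q (j) (by omega)
  have hN2 := NB_s1 q (j + 1) (by omega)
  refine ⟨j, by omega, ?_, Or.inl (by omega)⟩
  rw [hN1, hN2]; unfold uB; omega

theorem NB_E19 (q y : ℕ) (h1 : 6 * q + 26 ≤ y) (h2 : y ≤ 6 * q + 26) : ∃ j, j < 12 * q + 54 ∧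
    uB (q + 4) (NB q j) + uB (q + 4) (NB q (j + 1)) + y = 18 * (q + 4) + 7 ∧
    (j = 0 ∨ j + 1 = 12 * q + 54 ∨ wVB (q + 4) (NB q j) + wVB (q + 4) (NB q (j + 1)) + wEB (q + 4) y = 3) := by
  obtain ⟨j, hj⟩ : ∃ j, j = 12 * q + 49 := ⟨_, rfl⟩
  have hN1 := NB_s31 q (j) (by omega)
  have hN2 := NB_s32 q (j + 1) (by omega)
  refine ⟨j, by omega, ?_, Or.inr (Or.inr ?_)⟩
  · rw [hN1, hN2]; unfold uB; omega
  · rw [hN1, hN2]; unfold wVB wEB; omega

theorem NB_E20 (q y : ℕ) (h1 : 6 * q + 27 ≤ y) (h2 : y ≤ 6 * q + 27) : ∃ j, j < 12 * q + 54 ∧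
    uB (q + 4) (NB q j) + uB (q + 4) (NB q (j + 1)) + y = 18 * (q + 4) + 7 ∧
    (j = 0 ∨ j + 1 = 12 * q + 54 ∨ wVB (q + 4) (NB q j) + wVB (q + 4) (NB q (j + 1)) + wEB (q + 4) y = 3) := by
  obtain ⟨j, hj⟩ : ∃ j, j = 2 * q + 8 := ⟨_, rfl⟩
  have hN1 := NB_s8 q (j) (by omega)
  have hN2 := NB_s9 q (j + 1) (by omega)
  refine ⟨j, by omega, ?_, Or.inr (Or.inr ?_)⟩
  · rw [hN1, hN2]; unfold uB; omega
  · rw [hN1, hN2]; unfold wVB wEB; omega

theorem NB_E21 (q y : ℕ) (h1 : 6 * q + 28 ≤ y) (h2 : y ≤ 6 * q + 28) : ∃ j, j < 12 * q + 54 ∧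
    uB (q + 4) (NB q j) + uB (q + 4) (NB q (j + 1)) + y = 18 * (q + 4) + 7 ∧
    (j = 0 ∨ j + 1 = 12 * q + 54 ∨ wVB (q + 4) (NB q j) + wVB (q + 4) (NB q (j + 1)) + wEB (q + 4) y = 3) := by
  obtain ⟨j, hj⟩ : ∃ j, j = 2 * q + 7 := ⟨_, rfl⟩
  have hN1 := NB_s7 q (j) (by omega)
  have hN2 := NB_s8 q (j + 1) (by omega)
  refine ⟨j, by omega, ?_, Or.inr (Or.inr ?_)⟩
  · rw [hN1, hN2]; unfold uB; omega
  · rw [hN1, hN2]; unfold wVB wEB; omega

theorem NB_E22 (q y : ℕ) (h1 : 6 * q + 29 ≤ y) (h2 : y ≤ 6 * q + 29) : ∃ j, j < 12 * q + 54 ∧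
    uB (q + 4) (NB q j) + uB (q + 4) (NB q (j + 1)) + y = 18 * (q + 4) + 7 ∧
    (j = 0 ∨ j + 1 = 12 * q + 54 ∨ wVB (q + 4) (NB q j) + wVB (q + 4) (NB q (j + 1)) + wEB (q + 4) y = 3) := by
  obtain ⟨j, hj⟩ : ∃ j, j = 4 * q + 16 := ⟨_, rfl⟩
  have hN1 := NB_s16 q (j) (by omega)
  have hN2 := NB_s17 q (j + 1) (by omega)
  refine ⟨j, by omega, ?_, Or.inr (Or.inr ?_)⟩
  · rw [hN1, hN2]; unfold uB; omega
  · rw [hN1, hN2]; unfold wVB wEB; omega

theorem NB_E23 (q y : ℕ) (h1 : 6 * q + 30 ≤ y) (h2 : y ≤ 6 * q + 30) : ∃ j, j < 12 * q + 54 ∧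
    uB (q + 4) (NB q j) + uB (q + 4) (NB q (j + 1)) + y = 18 * (q + 4) + 7 ∧
    (j = 0 ∨ j + 1 = 12 * q + 54 ∨ wVB (q + 4) (NB q j) + wVB (q + 4) (NB q (j + 1)) + wEB (q + 4) y = 3) := by
  obtain ⟨j, hj⟩ : ∃ j, j = 2 * q + 6 := ⟨_, rfl⟩
  have hN1 := NB_s6 q (j) (by omega)
  have hN2 := NB_s7 q (j + 1) (by omega)
  refine ⟨j, by omega, ?_, Or.inr (Or.inr ?_)⟩
  · rw [hN1, hN2]; unfold uB; omega
  · rw [hN1, hN2]; unfold wVB wEB; omega

theorem NB_E24 (q y : ℕ) (h1 : 6 * q + 31 ≤ y) (h2 : y ≤ 6 * q + 31) : ∃ j, j < 12 * q + 54 ∧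
    uB (q + 4) (NB q j) + uB (q + 4) (NB q (j + 1)) + y = 18 * (q + 4) + 7 ∧
    (j = 0 ∨ j + 1 = 12 * q + 54 ∨ wVB (q + 4) (NB q j) + wVB (q + 4) (NB q (j + 1)) + wEB (q + 4) y = 3) := by
  obtain ⟨j, hj⟩ : ∃ j, j = 4 * q + 15 := ⟨_, rfl⟩
  have hN1 := NB_s15 q (j) (by omega)
  have hN2 := NB_s16 q (j + 1) (by omega)
  refine ⟨j, by omega, ?_, Or.inr (Or.inr ?_)⟩
  · rw [hN1, hN2]; unfold uB; omega
  · rw [hN1, hN2]; unfold wVB wEB; omega

theorem NB_E25 (q y : ℕ) (h1 : 6 * q + 32 ≤ y) (h2 : y ≤ 8 * q + 31) : ∃ j, j < 12 * q + 54 ∧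
    uB (q + 4) (NB q j) + uB (q + 4) (NB q (j + 1)) + y = 18 * (q + 4) + 7 ∧
    (j = 0 ∨ j + 1 = 12 * q + 54 ∨ wVB (q + 4) (NB q j) + wVB (q + 4) (NB q (j + 1)) + wEB (q + 4) y = 3) := by
  obtain ⟨j, hj⟩ : ∃ j, j = 4 + (8 * q + 31 - y) := ⟨_, rfl⟩
  have hN1 := NB_s4 q j (by omega) (by omega)
  have hN2 := NB_s4 q (j + 1) (by omega) (by omega)
  rcases Nat.mod_two_eq_zero_or_one (j - (4)) with hp | hp
  · rw [if_pos hp] at hN1
    rw [if_neg (by omega)] at hN2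
    refine ⟨j, by omega, ?_, Or.inr (Or.inr ?_)⟩
    · rw [hN1, hN2]; unfold uB; omega
    · rw [hN1, hN2]; unfold wVB wEB; omega
  · rw [if_neg (by omega)] at hN1
    rw [if_pos (by omega)] at hN2
    refine ⟨j, by omega, ?_, Or.inr (Or.inr ?_)⟩
    · rw [hN1, hN2]; unfold uB; omega
    · rw [hN1, hN2]; unfold wVB wEB; omega

theorem NB_E26 (q y : ℕ) (h1 : 8 * q + 32 ≤ y) (h2 : y ≤ 8 * q + 32) : ∃ j, j < 12 * q + 54 ∧
    uB (q + 4) (NB q j) + uB (q + 4) (NB q (j + 1)) + y = 18 * (q + 4) + 7 ∧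
    (j = 0 ∨ j + 1 = 12 * q + 54 ∨ wVB (q + 4) (NB q j) + wVB (q + 4) (NB q (j + 1)) + wEB (q + 4) y = 3) := by
  obtain ⟨j, hj⟩ : ∃ j, j = 1 := ⟨_, rfl⟩
  have hN1 := NB_s1 q (j) (by omega)
  have hN2 := NB_s2 q (j + 1) (by omega)
  refine ⟨j, by omega, ?_, Or.inr (Or.inr ?_)⟩
  · rw [hN1, hN2]; unfold uB; omega
  · rw [hN1, hN2]; unfold wVB wEB; omega

theorem NB_E27 (q y : ℕ) (h1 : 8 * q + 33 ≤ y) (h2 : y ≤ 8 * q + 33) : ∃ j, j < 12 * q + 54 ∧
    uB (q + 4) (NB q j) + uB (q + 4) (NB q (j + 1)) + y = 18 * (q + 4) + 7 ∧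
    (j = 0 ∨ j + 1 = 12 * q + 54 ∨ wVB (q + 4) (NB q j) + wVB (q + 4) (NB q (j + 1)) + wEB (q + 4) y = 3) := by
  obtain ⟨j, hj⟩ : ∃ j, j = 2 := ⟨_, rfl⟩
  have hN1 := NB_s2 q (j) (by omega)
  have hN2 := NB_s3 q (j + 1) (by omega)
  refine ⟨j, by omega, ?_, Or.inr (Or.inr ?_)⟩
  · rw [hN1, hN2]; unfold uB; omega
  · rw [hN1, hN2]; unfold wVB wEB; omega

theorem NB_E28 (q y : ℕ) (h1 : 8 * q + 34 ≤ y) (h2 : y ≤ 8 * q + 34) : ∃ j, j < 12 * q + 54 ∧
    uB (q + 4) (NB q j) + uB (q + 4) (NB q (j + 1)) + y = 18 * (q + 4) + 7 ∧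
    (j = 0 ∨ j + 1 = 12 * q + 54 ∨ wVB (q + 4) (NB q j) + wVB (q + 4) (NB q (j + 1)) + wEB (q + 4) y = 3) := by
  obtain ⟨j, hj⟩ : ∃ j, j = 8 * q + 35 := ⟨_, rfl⟩
  have hN1 := NB_s26 q (j) (by omega)
  have hN2 := NB_s27 q (j + 1) (by omega)
  refine ⟨j, by omega, ?_, Or.inr (Or.inr ?_)⟩
  · rw [hN1, hN2]; unfold uB; omega
  · rw [hN1, hN2]; unfold wVB wEB; omega

theorem NB_E29 (q y : ℕ) (h1 : 8 * q + 35 ≤ y) (h2 : y ≤ 8 * q + 35) : ∃ j, j < 12 * q + 54 ∧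
    uB (q + 4) (NB q j) + uB (q + 4) (NB q (j + 1)) + y = 18 * (q + 4) + 7 ∧
    (j = 0 ∨ j + 1 = 12 * q + 54 ∨ wVB (q + 4) (NB q j) + wVB (q + 4) (NB q (j + 1)) + wEB (q + 4) y = 3) := by
  obtain ⟨j, hj⟩ : ∃ j, j = 12 * q + 52 := ⟨_, rfl⟩
  have hN1 := NB_s34 q (j) (by omega)
  have hN2 := NB_s35 q (j + 1) (by omega)
  refine ⟨j, by omega, ?_, Or.inr (Or.inr ?_)⟩
  · rw [hN1, hN2]; unfold uB; omega
  · rw [hN1, hN2]; unfold wVB wEB; omega

theorem NB_E30 (q y : ℕ) (h1 : 8 * q + 36 ≤ y) (h2 : y ≤ 8 * q + 36) : ∃ j, j < 12 * q + 54 ∧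
    uB (q + 4) (NB q j) + uB (q + 4) (NB q (j + 1)) + y = 18 * (q + 4) + 7 ∧
    (j = 0 ∨ j + 1 = 12 * q + 54 ∨ wVB (q + 4) (NB q j) + wVB (q + 4) (NB q (j + 1)) + wEB (q + 4) y = 3) := by
  obtain ⟨j, hj⟩ : ∃ j, j = 12 * q + 51 := ⟨_, rfl⟩
  have hN1 := NB_s33 q (j) (by omega)
  have hN2 := NB_s34 q (j + 1) (by omega)
  refine ⟨j, by omega, ?_, Or.inr (Or.inr ?_)⟩
  · rw [hN1, hN2]; unfold uB; omega
  · rw [hN1, hN2]; unfold wVB wEB; omega

theorem NB_E31 (q y : ℕ) (h1 : 8 * q + 37 ≤ y) (h2 : y ≤ 8 * q + 37) : ∃ j, j < 12 * q + 54 ∧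
    uB (q + 4) (NB q j) + uB (q + 4) (NB q (j + 1)) + y = 18 * (q + 4) + 7 ∧
    (j = 0 ∨ j + 1 = 12 * q + 54 ∨ wVB (q + 4) (NB q j) + wVB (q + 4) (NB q (j + 1)) + wEB (q + 4) y = 3) := by
  obtain ⟨j, hj⟩ : ∃ j, j = 4 * q + 14 := ⟨_, rfl⟩
  have hN1 := NB_s14 q (j) (by omega)
  have hN2 := NB_s15 q (j + 1) (by omega)
  refine ⟨j, by omega, ?_, Or.inr (Or.inr ?_)⟩
  · rw [hN1, hN2]; unfold uB; omega
  · rw [hN1, hN2]; unfold wVB wEB; omega

theorem NB_E32 (q y : ℕ) (h1 : 8 * q + 38 ≤ y) (h2 : y ≤ 8 * q + 38) : ∃ j, j < 12 * q + 54 ∧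
    uB (q + 4) (NB q j) + uB (q + 4) (NB q (j + 1)) + y = 18 * (q + 4) + 7 ∧
    (j = 0 ∨ j + 1 = 12 * q + 54 ∨ wVB (q + 4) (NB q j) + wVB (q + 4) (NB q (j + 1)) + wEB (q + 4) y = 3) := by
  obtain ⟨j, hj⟩ : ∃ j, j = 4 * q + 13 := ⟨_, rfl⟩
  have hN1 := NB_s13 q (j) (by omega) (by omega)
  rw [if_pos (by omega)] at hN1
  have hN2 := NB_s14 q (j + 1) (by omega)
  refine ⟨j, by omega, ?_, Or.inr (Or.inr ?_)⟩
  · rw [hN1, hN2]; unfold uB; omega
  · rw [hN1, hN2]; unfold wVB wEB; omega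

theorem NB_E33 (q y : ℕ) (h1 : 8 * q + 39 ≤ y) (h2 : y ≤ 12 * q + 47) : ∃ j, j < 12 * q + 54 ∧
    uB (q + 4) (NB q j) + uB (q + 4) (NB q (j + 1)) + y = 18 * (q + 4) + 7 ∧
    (j = 0 ∨ j + 1 = 12 * q + 54 ∨ wVB (q + 4) (NB q j) + wVB (q + 4) (NB q (j + 1)) + wEB (q + 4) y = 3) := by
  obtain ⟨j, hj⟩ : ∃ j, j = 8 * q + 38 + (y - (8 * q + 39)) := ⟨_, rfl⟩
  have hN1 := NB_s29 q j (by omega) (by omega)
  have hN2 := NB_s29 q (j + 1) (by omega) (by omega)
  rcases Nat.mod_two_eq_zero_or_one (j - (8 * q + 38)) with hp | hp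
  · rw [if_pos hp] at hN1
    rw [if_neg (by omega)] at hN2
    refine ⟨j, by omega, ?_, Or.inr (Or.inr ?_)⟩
    · rw [hN1, hN2]; unfold uB; omega
    · rw [hN1, hN2]; unfold wVB wEB; omega
  · rw [if_neg (by omega)] at hN1
    rw [if_pos (by omega)] at hN2
    refine ⟨j, by omega, ?_, Or.inr (Or.inr ?_)⟩
    · rw [hN1, hN2]; unfold uB; omega
    · rw [hN1, hN2]; unfold wVB wEB; omega

theorem NB_E34 (q y : ℕ) (h1 : 12 * q + 48 ≤ y) (h2 : y ≤ 12 * q + 48) : ∃ j, j < 12 * q + 54 ∧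
    uB (q + 4) (NB q j) + uB (q + 4) (NB q (j + 1)) + y = 18 * (q + 4) + 7 ∧
    (j = 0 ∨ j + 1 = 12 * q + 54 ∨ wVB (q + 4) (NB q j) + wVB (q + 4) (NB q (j + 1)) + wEB (q + 4) y = 3) := by
  obtain ⟨j, hj⟩ : ∃ j, j = 4 * q + 20 := ⟨_, rfl⟩
  have hN1 := NB_s20 q (j) (by omega)
  have hN2 := NB_s21 q (j + 1) (by omega) (by omega)
  rw [if_pos (by omega)] at hN2
  refine ⟨j, by omega, ?_, Or.inr (Or.inr ?_)⟩
  · rw [hN1, hN2]; unfold uB; omega
  · rw [hN1, hN2]; unfold wVB wEB; omega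

theorem NB_E35 (q y : ℕ) (h1 : 12 * q + 49 ≤ y) (h2 : y ≤ 12 * q + 49) : ∃ j, j < 12 * q + 54 ∧
    uB (q + 4) (NB q j) + uB (q + 4) (NB q (j + 1)) + y = 18 * (q + 4) + 7 ∧
    (j = 0 ∨ j + 1 = 12 * q + 54 ∨ wVB (q + 4) (NB q j) + wVB (q + 4) (NB q (j + 1)) + wEB (q + 4) y = 3) := by
  obtain ⟨j, hj⟩ : ∃ j, j = 2 * q + 11 := ⟨_, rfl⟩
  have hN1 := NB_s11 q (j) (by omega)
  have hN2 := NB_s12 q (j + 1) (by omega)
  refine ⟨j, by omega, ?_, Or.inr (Or.inr ?_)⟩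
  · rw [hN1, hN2]; unfold uB; omega
  · rw [hN1, hN2]; unfold wVB wEB; omega

theorem NB_E36 (q y : ℕ) (h1 : 12 * q + 50 ≤ y) (h2 : y ≤ 12 * q + 50) : ∃ j, j < 12 * q + 54 ∧
    uB (q + 4) (NB q j) + uB (q + 4) (NB q (j + 1)) + y = 18 * (q + 4) + 7 ∧
    (j = 0 ∨ j + 1 = 12 * q + 54 ∨ wVB (q + 4) (NB q j) + wVB (q + 4) (NB q (j + 1)) + wEB (q + 4) y = 3) := by
  obtain ⟨j, hj⟩ : ∃ j, j = 2 * q + 10 := ⟨_, rfl⟩
  have hN1 := NB_s10 q (j) (by omega)
  have hN2 := NB_s11 q (j + 1) (by omega)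
  refine ⟨j, by omega, ?_, Or.inr (Or.inr ?_)⟩
  · rw [hN1, hN2]; unfold uB; omega
  · rw [hN1, hN2]; unfold wVB wEB; omega

theorem NB_E37 (q y : ℕ) (h1 : 12 * q + 51 ≤ y) (h2 : y ≤ 12 * q + 51) : ∃ j, j < 12 * q + 54 ∧
    uB (q + 4) (NB q j) + uB (q + 4) (NB q (j + 1)) + y = 18 * (q + 4) + 7 ∧
    (j = 0 ∨ j + 1 = 12 * q + 54 ∨ wVB (q + 4) (NB q j) + wVB (q + 4) (NB q (j + 1)) + wEB (q + 4) y = 3) := by
  obtain ⟨j, hj⟩ : ∃ j, j = 2 * q + 9 := ⟨_, rfl⟩
  have hN1 := NB_s9 q (j) (by omega)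
  have hN2 := NB_s10 q (j + 1) (by omega)
  refine ⟨j, by omega, ?_, Or.inr (Or.inr ?_)⟩
  · rw [hN1, hN2]; unfold uB; omega
  · rw [hN1, hN2]; unfold wVB wEB; omega

theorem NB_E38 (q y : ℕ) (h1 : 12 * q + 52 ≤ y) (h2 : y ≤ 12 * q + 52) : ∃ j, j < 12 * q + 54 ∧
    uB (q + 4) (NB q j) + uB (q + 4) (NB q (j + 1)) + y = 18 * (q + 4) + 7 ∧
    (j = 0 ∨ j + 1 = 12 * q + 54 ∨ wVB (q + 4) (NB q j) + wVB (q + 4) (NB q (j + 1)) + wEB (q + 4) y = 3) := by
  obtain ⟨j, hj⟩ : ∃ j, j = 12 * q + 47 := ⟨_, rfl⟩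
  have hN1 := NB_s29 q (j) (by omega) (by omega)
  rw [if_neg (by omega)] at hN1
  have hN2 := NB_s30 q (j + 1) (by omega)
  refine ⟨j, by omega, ?_, Or.inr (Or.inr ?_)⟩
  · rw [hN1, hN2]; unfold uB; omega
  · rw [hN1, hN2]; unfold wVB wEB; omega

theorem NB_E39 (q y : ℕ) (h1 : 12 * q + 53 ≤ y) (h2 : y ≤ 12 * q + 53) : ∃ j, j < 12 * q + 54 ∧
    uB (q + 4) (NB q j) + uB (q + 4) (NB q (j + 1)) + y = 18 * (q + 4) + 7 ∧
    (j = 0 ∨ j + 1 = 12 * q + 54 ∨ wVB (q + 4) (NB q j) + wVB (q + 4) (NB q (j + 1)) + wEB (q + 4) y = 3) := by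
  obtain ⟨j, hj⟩ : ∃ j, j = 12 * q + 50 := ⟨_, rfl⟩
  have hN1 := NB_s32 q (j) (by omega)
  have hN2 := NB_s33 q (j + 1) (by omega)
  refine ⟨j, by omega, ?_, Or.inr (Or.inr ?_)⟩
  · rw [hN1, hN2]; unfold uB; omega
  · rw [hN1, hN2]; unfold wVB wEB; omega

theorem NB_E (q y : ℕ) (hy : y < 12 * q + 54) : ∃ j, j < 12 * q + 54 ∧
    uB (q + 4) (NB q j) + uB (q + 4) (NB q (j + 1)) + y = 18 * (q + 4) + 7 ∧
    (j = 0 ∨ j + 1 = 12 * q + 54 ∨ wVB (q + 4) (NB q j) + wVB (q + 4) (NB q (j + 1)) + wEB (q + 4) y = 3) := by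
  by_cases g0 : y < 1
  · exact NB_E0 q y (by omega) (by omega)
  by_cases g1 : y < 2
  · exact NB_E1 q y (by omega) (by omega)
  by_cases g2 : y < 3
  · exact NB_E2 q y (by omega) (by omega)
  by_cases g3 : y < 4
  · exact NB_E3 q y (by omega) (by omega)
  by_cases g4 : y < 5
  · exact NB_E4 q y (by omega) (by omega)
  by_cases g5 : y < 6
  · exact NB_E5 q y (by omega) (by omega)
  by_cases g6 : y < 4 * q + 15
  · exact NB_E6 q y (by omega) (by omega)
  by_cases g7 : y < 4 * q + 16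
  · exact NB_E7 q y (by omega) (by omega)
  by_cases g8 : y < 4 * q + 17
  · exact NB_E8 q y (by omega) (by omega)
  by_cases g9 : y < 4 * q + 18
  · exact NB_E9 q y (by omega) (by omega)
  by_cases g10 : y < 4 * q + 19
  · exact NB_E10 q y (by omega) (by omega)
  by_cases g11 : y < 4 * q + 20
  · exact NB_E11 q y (by omega) (by omega)
  by_cases g12 : y < 4 * q + 21
  · exact NB_E12 q y (by omega) (by omega)
  by_cases g13 : y < 4 * q + 22
  · exact NB_E13 q y (by omega) (by omega)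
  by_cases g14 : y < 4 * q + 23
  · exact NB_E14 q y (by omega) (by omega)
  by_cases g15 : y < 6 * q + 23
  · exact NB_E15 q y (by omega) (by omega)
  by_cases g16 : y < 6 * q + 24
  · exact NB_E16 q y (by omega) (by omega)
  by_cases g17 : y < 6 * q + 25
  · exact NB_E17 q y (by omega) (by omega)
  by_cases g18 : y < 6 * q + 26
  · exact NB_E18 q y (by omega) (by omega)
  by_cases g19 : y < 6 * q + 27
  · exact NB_E19 q y (by omega) (by omega)
  by_cases g20 : y < 6 * q + 28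
  · exact NB_E20 q y (by omega) (by omega)
  by_cases g21 : y < 6 * q + 29
  · exact NB_E21 q y (by omega) (by omega)
  by_cases g22 : y < 6 * q + 30
  · exact NB_E22 q y (by omega) (by omega)
  by_cases g23 : y < 6 * q + 31
  · exact NB_E23 q y (by omega) (by omega)
  by_cases g24 : y < 6 * q + 32
  · exact NB_E24 q y (by omega) (by omega)
  by_cases g25 : y < 8 * q + 32
  · exact NB_E25 q y (by omega) (by omega)
  by_cases g26 : y < 8 * q + 33
  · exact NB_E26 q y (by omega) (by omega)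
  by_cases g27 : y < 8 * q + 34
  · exact NB_E27 q y (by omega) (by omega)
  by_cases g28 : y < 8 * q + 35
  · exact NB_E28 q y (by omega) (by omega)
  by_cases g29 : y < 8 * q + 36
  · exact NB_E29 q y (by omega) (by omega)
  by_cases g30 : y < 8 * q + 37
  · exact NB_E30 q y (by omega) (by omega)
  by_cases g31 : y < 8 * q + 38
  · exact NB_E31 q y (by omega) (by omega)
  by_cases g32 : y < 8 * q + 39
  · exact NB_E32 q y (by omega) (by omega)
  by_cases g33 : y < 12 * q + 48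
  · exact NB_E33 q y (by omega) (by omega)
  by_cases g34 : y < 12 * q + 49
  · exact NB_E34 q y (by omega) (by omega)
  by_cases g35 : y < 12 * q + 50
  · exact NB_E35 q y (by omega) (by omega)
  by_cases g36 : y < 12 * q + 51
  · exact NB_E36 q y (by omega) (by omega)
  by_cases g37 : y < 12 * q + 52
  · exact NB_E37 q y (by omega) (by omega)
  by_cases g38 : y < 12 * q + 53
  · exact NB_E38 q y (by omega) (by omega)
  exact NB_E39 q y (by omega) (by omega)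

/-- **Grids with an even number of rows and `n = 6 mod 12`, `n ≥ 54` columns.** -/
theorem isEMT_B6 (h q : ℕ) (hh : 1 ≤ h) : IsEMT (grid (2 * h) (12 * (q + 4) + 6)) := by
  refine isEMT_critB (q + 4) h (by omega) hh (NB q) ?_ ?_ ?_ ?_ ?_ ?_
  · rw [NB_s0 q _ rfl]; omega
  · rw [NB_s1 q _ rfl]; omega
  · rw [NB_s36 q _ (by omega)]; omega
  · rw [NB_s35 q _ (by omega)]; omega
  · intro x hx
    obtain ⟨j, h1, h2⟩ := NB_V q x (by omega)
    exact ⟨j, by omega, h2⟩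
  · intro y hy
    obtain ⟨j, h1, h2, h3⟩ := NB_E q y (by omega)
    exact ⟨j, by omega, h2, by rcases h3 with h3 | h3 | h3; exacts [Or.inl h3, Or.inr (Or.inl (by omega)), Or.inr (Or.inr h3)]⟩

end Pool.Agent.Helper46.EMT
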