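import Mathlib
import Pool.Agent.Helper29.EMT.Chain

/-!
# MP_5186fc_co : explicit words for the zigzag chain

A word is the order on the line of the blocks `V_0, ..., V_n` and `E_0, ..., E_{n-1}` of the zigzag
chain.  All positions are linear in `h`, where the number of rows is `2 h + par`; they are given
by pairs (coefficient of `h`, constant), so that the correctness of a word, for all `h` at the
same time, is a finite check.
-/

set_option autoImplicit false

open SimpleGraph

namespace Pool.Agent.Helper46.EMT

open Pool.Agent.Helper29.EMT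

/-- value at `h` of a pair (coefficient of `h`, constant) -/
def ev (h : ℕ) (p : ℤ × ℤ) : ℤ := p.1 * h + p.2

/-- the check of the piece number `i`: the code `W i` is `2 * j` for the block `V_j` and
`2 * j + 1` for the block `E_j`; `P` are the break points, `A j` the start of `V_j` -/
def stepOK (par n : ℕ) (A P : ℕ → ℤ × ℤ) (K : ℤ × ℤ) (W : ℕ → ℕ) (i : ℕ) : Prop :=
  if W i % 2 = 0 then
    W i / 2 ≤ n ∧ P i = A (W i / 2) ∧
      P (i + 1) = A (W i / 2) + (if W i / 2 = 0 then (1, (par : ℤ)) else
        if W i / 2 = n then (1, 0) else (2, (par : ℤ)))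
  else
    W i / 2 < n ∧ P (i + 1) = K - A (W i / 2) - A (W i / 2 + 1) + (0, 1) ∧
      P i = P (i + 1) - (if W i / 2 = 0 then (3, 2 * (par : ℤ) - 1) else
        if W i / 2 + 1 = n then (3, (par : ℤ) - 1) else (4, 2 * (par : ℤ) - 1))

instance (par n : ℕ) (A P : ℕ → ℤ × ℤ) (K : ℤ × ℤ) (W : ℕ → ℕ) (i : ℕ) :
    Decidable (stepOK par n A P K W i) := by unfold stepOK; infer_instance

theorem isEMT_of_word (par n h : ℕ) (hpar : par = 0 ∨ par = 1) (hh : 1 ≤ h) (hn : 3 ≤ n)
    (A P : ℕ → ℤ × ℤ) (K : ℤ × ℤ) (W : ℕ → ℕ) (h0 : P 0 = (0, 0))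
    (hlast : P (2 * n + 1) = (6 * (n : ℤ) - 2, (par : ℤ) * (3 * n - 1) - n))
    (hW : ∀ i, i < 2 * n + 1 → stepOK par n A P K W i) : IsEMT (grid (2 * h + par) n) := by
  refine isEMT_of_chain (2 * h + par) n (by omega) (by omega) (fun j => ev h (A j)) (ev h K) ?_
  set S := chainSet (2 * h + par) n (fun j => ev h (A j)) (ev h K) with hS
  have key : ∀ i, i < 2 * n + 1 → Cov S (ev h (P i)) (ev h (P (i + 1))) := by
    intro i hi
    have hs := hW i hi
    unfold stepOK at hs
    generalize W i = c at hs
    obtain ⟨j, hj⟩ : ∃ j, j = c / 2 := ⟨_, rfl⟩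
    rw [← hj] at hs
    split_ifs at hs with hc h1 h2 h1 h2
    · obtain ⟨_, a1, a2⟩ := hs
      have h3 := cov_N0 (2 * h + par) n (fun j => ev h (A j)) (ev h K)
      rw [h1] at a1 a2
      refine h3.congr (by rw [a1]) ?_
      rw [a2]
      rcases hpar with hp | hp
      · subst hp
        rw [show (2 * h + 0 + 1) / 2 = h by omega]
        simp only [ev, Prod.fst_add, Prod.snd_add]; push_cast; ring
      · subst hp
        rw [show (2 * h + 1 + 1) / 2 = h + 1 by omega]
        simp only [ev, Prod.fst_add, Prod.snd_add]; push_cast; ring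
    · obtain ⟨_, a1, a2⟩ := hs
      have h3 := cov_Nn (2 * h + par) n (fun j => ev h (A j)) (ev h K)
      rw [h2] at a1 a2
      refine h3.congr (by rw [a1]) ?_
      rw [a2]
      rcases hpar with hp | hp
      · subst hp
        rw [show (2 * h + 0) / 2 = h by omega]
        simp only [ev, Prod.fst_add, Prod.snd_add]; push_cast; ring
      · subst hp
        rw [show (2 * h + 1) / 2 = h by omega]
        simp only [ev, Prod.fst_add, Prod.snd_add]; push_cast; ring
    · obtain ⟨hj2, a1, a2⟩ := hs
      have h3 := cov_N (2 * h + par) n (fun j => ev h (A j)) (ev h K) j (by omega) (by omega)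
      refine h3.congr (by rw [a1]) ?_
      rw [a2]
      simp only [ev, Prod.fst_add, Prod.snd_add]; push_cast; ring
    · obtain ⟨_, a1, a2⟩ := hs
      have h3 := cov_E0 (2 * h + par) n (fun j => ev h (A j)) (ev h K)
      rw [h1] at a1
      rcases hpar with hp | hp
      · subst hp
        rw [show (3 * (2 * h + 0) - 1) / 2 = 3 * h - 1 by omega, Nat.cast_sub (by omega)] at h3
        refine h3.congr ?_ ?_
        · rw [a2, a1]
          simp only [ev, Prod.fst_sub, Prod.snd_sub, Prod.fst_add, Prod.snd_add]; push_cast; ring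
        · rw [a1]
          simp only [ev, Prod.fst_sub, Prod.snd_sub, Prod.fst_add, Prod.snd_add]; push_cast; ring
      · subst hp
        rw [show (3 * (2 * h + 1) - 1) / 2 = 3 * h + 1 by omega] at h3
        refine h3.congr ?_ ?_
        · rw [a2, a1]
          simp only [ev, Prod.fst_sub, Prod.snd_sub, Prod.fst_add, Prod.snd_add]; push_cast; ring
        · rw [a1]
          simp only [ev, Prod.fst_sub, Prod.snd_sub, Prod.fst_add, Prod.snd_add]; push_cast; ring
    · obtain ⟨_, a1, a2⟩ := hs
      have h3 := cov_En (2 * h + par) n (fun j => ev h (A j)) (ev h K)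
      rw [show n - 1 = j by omega] at h3
      rw [h2] at a1
      rcases hpar with hp | hp
      · subst hp
        rw [show (3 * (2 * h + 0) - 2) / 2 = 3 * h - 1 by omega, Nat.cast_sub (by omega)] at h3
        refine h3.congr ?_ ?_
        · rw [a2, a1]
          simp only [ev, Prod.fst_sub, Prod.snd_sub, Prod.fst_add, Prod.snd_add]; push_cast; ring
        · rw [a1]
          simp only [ev, Prod.fst_sub, Prod.snd_sub, Prod.fst_add, Prod.snd_add]; push_cast; ring
      · subst hp
        rw [show (3 * (2 * h + 1) - 2) / 2 = 3 * h by omega] at h3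
        refine h3.congr ?_ ?_
        · rw [a2, a1]
          simp only [ev, Prod.fst_sub, Prod.snd_sub, Prod.fst_add, Prod.snd_add]; push_cast; ring
        · rw [a1]
          simp only [ev, Prod.fst_sub, Prod.snd_sub, Prod.fst_add, Prod.snd_add]; push_cast; ring
    · obtain ⟨hj2, a1, a2⟩ := hs
      have h3 := cov_E (2 * h + par) n (fun j => ev h (A j)) (ev h K) j (by omega) (by omega)
      refine h3.congr ?_ ?_
      · rw [a2, a1]
        simp only [ev, Prod.fst_sub, Prod.snd_sub, Prod.fst_add, Prod.snd_add]; push_cast; ring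
      · rw [a1]
        simp only [ev, Prod.fst_sub, Prod.snd_sub, Prod.fst_add, Prod.snd_add]; push_cast; ring
  have hmain := Cov.iter (S := S) (fun i => ev h (P i)) (2 * n + 1) key
  refine hmain.congr ?_ ?_
  · simp [ev, h0]
  · rw [hlast]; simp only [ev]; push_cast; ring

end Pool.Agent.Helper46.EMT
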