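import Mathlib
import Pool.Agent.Helper46.EMT.Word

/-!
# MP_5186fc_co : grids with 18, 30, 42 columns and an even number of rows, and grids with 11, 23
columns and an odd number of rows
-/

set_option autoImplicit false

open SimpleGraph

namespace Pool.Agent.Helper46.EMT

open Pool.Agent.Helper29.EMT

/-- start positions of the blocks `V_j`, `n = 18` -/
def A18 : List (ℤ × ℤ) :=
    [(8, -1), (75, -13), (70, -12), (0, 0), (52, -9), (6, -1), (88, -15), (35, -6), (29, -5),
    (100, -17), (17, -3), (58, -10), (94, -16), (41, -7), (47, -8), (64, -11), (77, -13), (23,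
    -4), (83, -14)]

/-- break points, `n = 18` -/
def P18 : List (ℤ × ℤ) :=
    [(0, 0), (2, 0), (6, -1), (8, -1), (9, -1), (13, -2), (17, -3), (19, -3), (23, -4), (25, -4),
    (29, -5), (31, -5), (35, -6), (37, -6), (41, -7), (43, -7), (47, -8), (49, -8), (52, -9),
    (54, -9), (58, -10), (60, -10), (64, -11), (66, -11), (70, -12), (72, -12), (75, -13), (77,
    -13), (79, -13), (83, -14), (84, -14), (88, -15), (90, -15), (94, -16), (96, -16), (100,
    -17), (102, -17), (106, -18)]

/-- the word, `n = 18` -/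
def W18 : List ℕ :=
    [6, 23, 10, 0, 3, 31, 20, 25, 34, 17, 16, 13, 14, 19, 26, 29, 28, 35, 8, 33, 22, 11, 30, 27,
    4, 1, 2, 32, 21, 36, 5, 12, 15, 24, 9, 18, 7]

theorem step18 : ∀ i : Fin 37, stepOK 0 18 (fun j => A18.getD j (0, 0))
    (fun j => P18.getD j (0, 0)) (158, -28) (fun j => W18.getD j 0) i := by
  decide +kernel

theorem isEMT_18 (h : ℕ) (hh : 1 ≤ h) : IsEMT (grid (2 * h) 18) := by
  exact isEMT_of_word 0 18 h (by norm_num) hh (by norm_num) (fun j => A18.getD j (0, 0))
    (fun j => P18.getD j (0, 0)) (158, -28) (fun j => W18.getD j 0) (by decide +kernel)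
    (by decide +kernel) (fun i hi => step18 ⟨i, hi⟩)

/-- start positions of the blocks `V_j`, `n = 30` -/
def A30 : List (ℤ × ℤ) :=
    [(77, -13), (101, -17), (17, -3), (113, -19), (23, -4), (119, -20), (29, -5), (125, -21),
    (35, -6), (131, -22), (107, -18), (137, -23), (47, -8), (143, -24), (53, -9), (149, -25),
    (59, -10), (155, -26), (65, -11), (161, -27), (71, -12), (41, -7), (83, -14), (0, 0), (172,
    -29), (78, -13), (11, -2), (95, -16), (5, -1), (89, -15), (167, -28)]

/-- break points, `n = 30` -/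
def P30 : List (ℤ × ℤ) :=
    [(0, 0), (2, 0), (5, -1), (7, -1), (11, -2), (13, -2), (17, -3), (19, -3), (23, -4), (25,
    -4), (29, -5), (31, -5), (35, -6), (37, -6), (41, -7), (43, -7), (47, -8), (49, -8), (53,
    -9), (55, -9), (59, -10), (61, -10), (65, -11), (67, -11), (71, -12), (73, -12), (77, -13),
    (78, -13), (80, -13), (83, -14), (85, -14), (89, -15), (91, -15), (95, -16), (97, -16), (101,
    -17), (103, -17), (107, -18), (109, -18), (113, -19), (115, -19), (119, -20), (121, -20),
    (125, -21), (127, -21), (131, -22), (133, -22), (137, -23), (139, -23), (143, -24), (145,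
    -24), (149, -25), (151, -25), (155, -26), (157, -26), (161, -27), (163, -27), (167, -28),
    (168, -28), (172, -29), (174, -29), (178, -30)]

/-- the word, `n = 30` -/
def W30 : List ℕ :=
    [46, 59, 56, 49, 52, 21, 4, 19, 8, 39, 12, 37, 16, 35, 42, 33, 24, 31, 28, 29, 32, 27, 36,
    25, 40, 23, 0, 50, 1, 44, 47, 58, 17, 54, 15, 2, 13, 20, 11, 6, 9, 10, 7, 14, 5, 18, 43, 22,
    3, 26, 41, 30, 53, 34, 55, 38, 57, 60, 51, 48, 45]

theorem step30 : ∀ i : Fin 61, stepOK 0 30 (fun j => A30.getD j (0, 0))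
    (fun j => P30.getD j (0, 0)) (261, -45) (fun j => W30.getD j 0) i := by
  decide +kernel

theorem isEMT_30 (h : ℕ) (hh : 1 ≤ h) : IsEMT (grid (2 * h) 30) := by
  exact isEMT_of_word 0 30 h (by norm_num) hh (by norm_num) (fun j => A30.getD j (0, 0))
    (fun j => P30.getD j (0, 0)) (261, -45) (fun j => W30.getD j 0) (by decide +kernel)
    (by decide +kernel) (fun i hi => step30 ⟨i, hi⟩)

/-- start positions of the blocks `V_j`, `n = 42` -/
def A42 : List (ℤ × ℤ) :=
    [(113, -19), (137, -23), (59, -10), (131, -22), (185, -31), (53, -9), (179, -30), (47, -8),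
    (173, -29), (41, -7), (167, -28), (35, -6), (107, -18), (29, -5), (101, -17), (233, -39),
    (95, -16), (227, -38), (119, -20), (221, -37), (89, -15), (215, -36), (83, -14), (209, -35),
    (77, -13), (203, -34), (71, -12), (197, -33), (65, -11), (191, -32), (161, -27), (23, -4),
    (155, -26), (17, -3), (149, -25), (11, -2), (143, -24), (5, -1), (114, -19), (244, -41), (0,
    0), (125, -21), (239, -40)]

/-- break points, `n = 42` -/
def P42 : List (ℤ × ℤ) :=
    [(0, 0), (2, 0), (5, -1), (7, -1), (11, -2), (13, -2), (17, -3), (19, -3), (23, -4), (25,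
    -4), (29, -5), (31, -5), (35, -6), (37, -6), (41, -7), (43, -7), (47, -8), (49, -8), (53,
    -9), (55, -9), (59, -10), (61, -10), (65, -11), (67, -11), (71, -12), (73, -12), (77, -13),
    (79, -13), (83, -14), (85, -14), (89, -15), (91, -15), (95, -16), (97, -16), (101, -17),
    (103, -17), (107, -18), (109, -18), (113, -19), (114, -19), (116, -19), (119, -20), (121,
    -20), (125, -21), (127, -21), (131, -22), (133, -22), (137, -23), (139, -23), (143, -24),
    (145, -24), (149, -25), (151, -25), (155, -26), (157, -26), (161, -27), (163, -27), (167,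
    -28), (169, -28), (173, -29), (175, -29), (179, -30), (181, -30), (185, -31), (187, -31),
    (191, -32), (193, -32), (197, -33), (199, -33), (203, -34), (205, -34), (209, -35), (211,
    -35), (215, -36), (217, -36), (221, -37), (223, -37), (227, -38), (229, -38), (233, -39),
    (235, -39), (239, -40), (240, -40), (244, -41), (246, -41), (250, -42)]

/-- the word, `n = 42` -/
def W42 : List ℕ :=
    [80, 83, 74, 77, 70, 59, 66, 35, 62, 37, 26, 29, 22, 31, 18, 33, 14, 7, 10, 39, 4, 41, 56,
    43, 52, 45, 48, 47, 44, 49, 40, 51, 32, 53, 28, 55, 24, 57, 0, 76, 1, 36, 79, 82, 9, 6, 11,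
    2, 13, 72, 15, 68, 17, 64, 19, 60, 21, 20, 3, 16, 5, 12, 61, 8, 63, 58, 65, 54, 67, 50, 69,
    46, 71, 42, 73, 38, 23, 34, 25, 30, 27, 84, 81, 78, 75]

theorem step42 : ∀ i : Fin 85, stepOK 0 42 (fun j => A42.getD j (0, 0))
    (fun j => P42.getD j (0, 0)) (369, -63) (fun j => W42.getD j 0) i := by
  decide +kernel

theorem isEMT_42 (h : ℕ) (hh : 1 ≤ h) : IsEMT (grid (2 * h) 42) := by
  exact isEMT_of_word 0 42 h (by norm_num) hh (by norm_num) (fun j => A42.getD j (0, 0))
    (fun j => P42.getD j (0, 0)) (369, -63) (fun j => W42.getD j 0) (by decide +kernel)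
    (by decide +kernel) (fun i hi => step42 ⟨i, hi⟩)

/-- start positions of the blocks `V_j`, `n = 11` -/
def A11 : List (ℤ × ℤ) :=
    [(30, 9), (56, 18), (20, 6), (62, 20), (5, 1), (35, 11), (37, 12), (11, 3), (48, 15), (43,
    14), (54, 17), (0, 0)]

/-- break points, `n = 11` -/
def P11 : List (ℤ × ℤ) :=
    [(0, 0), (1, 0), (5, 1), (7, 2), (11, 3), (13, 4), (16, 5), (20, 6), (22, 7), (26, 8), (30,
    9), (31, 10), (35, 11), (37, 12), (39, 13), (43, 14), (45, 15), (48, 15), (50, 16), (54, 17),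
    (56, 18), (58, 19), (62, 20), (64, 21)]

/-- the word, `n = 11` -/
def W11 : List ℕ :=
    [22, 19, 8, 17, 14, 1, 5, 4, 3, 11, 0, 7, 10, 12, 15, 18, 21, 16, 13, 20, 2, 9, 6]

theorem step11 : ∀ i : Fin 23, stepOK 1 11 (fun j => A11.getD j (0, 0))
    (fun j => P11.getD j (0, 0)) (102, 31) (fun j => W11.getD j 0) i := by
  decide +kernel

theorem isEMT_11 (h : ℕ) (hh : 1 ≤ h) : IsEMT (grid (2 * h + 1) 11) := by
  exact isEMT_of_word 1 11 h (by norm_num) hh (by norm_num) (fun j => A11.getD j (0, 0))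
    (fun j => P11.getD j (0, 0)) (102, 31) (fun j => W11.getD j 0) (by decide +kernel)
    (by decide +kernel) (fun i hi => step11 ⟨i, hi⟩)

/-- start positions of the blocks `V_j`, `n = 23` -/
def A23 : List (ℤ × ℤ) :=
    [(60, 20), (134, 44), (0, 0), (65, 22), (40, 13), (29, 10), (46, 15), (82, 27), (94, 31), (5,
    2), (118, 39), (35, 12), (52, 17), (112, 37), (58, 19), (23, 8), (124, 41), (17, 6), (76,
    25), (106, 35), (11, 4), (100, 33), (88, 29), (71, 24)]

/-- break points, `n = 23` -/
def P23 : List (ℤ × ℤ) :=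
    [(0, 0), (2, 1), (5, 2), (7, 3), (11, 4), (13, 5), (17, 6), (19, 7), (23, 8), (25, 9), (29,
    10), (31, 11), (35, 12), (37, 13), (40, 13), (42, 14), (46, 15), (48, 16), (52, 17), (54,
    18), (58, 19), (60, 20), (61, 21), (65, 22), (67, 23), (71, 24), (72, 24), (76, 25), (78,
    26), (82, 27), (84, 28), (88, 29), (90, 30), (94, 31), (96, 32), (100, 33), (102, 34), (106,
    35), (108, 36), (112, 37), (114, 38), (118, 39), (120, 40), (124, 41), (126, 42), (130, 43),
    (134, 44), (136, 45)]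

/-- the word, `n = 23` -/
def W23 : List ℕ :=
    [4, 1, 18, 43, 40, 37, 34, 15, 30, 27, 10, 25, 22, 45, 8, 21, 12, 31, 24, 33, 28, 0, 3, 6,
    13, 46, 19, 36, 39, 14, 41, 44, 7, 16, 17, 42, 35, 38, 23, 26, 29, 20, 11, 32, 9, 5, 2]

theorem step23 : ∀ i : Fin 47, stepOK 1 23 (fun j => A23.getD j (0, 0))
    (fun j => P23.getD j (0, 0)) (199, 65) (fun j => W23.getD j 0) i := by
  decide +kernel

theorem isEMT_23 (h : ℕ) (hh : 1 ≤ h) : IsEMT (grid (2 * h + 1) 23) := by
  exact isEMT_of_word 1 23 h (by norm_num) hh (by norm_num) (fun j => A23.getD j (0, 0))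
    (fun j => P23.getD j (0, 0)) (199, 65) (fun j => W23.getD j 0) (by decide +kernel)
    (by decide +kernel) (fun i hi => step23 ⟨i, hi⟩)

end Pool.Agent.Helper46.EMT
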